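import Pool.Agent.NH83.QI.Defs

/-!
# QI-F: edges with a small difference, one class
-/

set_option autoImplicit false
set_option linter.unusedSectionVars false

namespace Pool.Agent.NH83.QI

open Finset

namespace CLS

variable {ι : Type} [Fintype ι] [DecidableEq ι]

lemma abs_flip (F : (ι → Bool) → ℝ) (i : ι) (x : ι → Bool) :
    |F x - F (flip i x)| = |D i F x| := by
  rw [D_sg, abs_mul]
  have : |sg (x i)| = 1 := by
    rcases sg_pm (x i) with h | h <;> rw [h] <;> norm_num
  rw [this, one_mul]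

/-- a large difference near the threshold crosses one of the neighbouring thresholds -/
lemma thr (F : (ι → Bool) → ℝ) (i : ι) (x : ι → Bool) (τ c : ℝ) (hτ : 0 < τ)
    (h1 : |F x - c| < 2 * τ) (h2 : τ / 4 < |D i F x|) :
    ∃ j ∈ Finset.Icc (-8 : ℤ) 8, sens (c + j * (τ / 4)) F i x := by
  rw [← abs_flip] at h2
  obtain ⟨q, hq⟩ : ∃ q : ℝ, q = (F x - c) / (τ / 4) := ⟨_, rfl⟩
  have hq4 : q * (τ / 4) = F x - c := by
    rw [hq]
    field_simp
  have hfl := Int.floor_le q
  have hlt := Int.lt_floor_add_one q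
  obtain ⟨h1a, h1b⟩ := abs_lt.1 h1
  have hq8 : q < 8 := by
    by_contra hcon
    push Not at hcon
    nlinarith
  have hq8' : -8 < q := by
    by_contra hcon
    push Not at hcon
    nlinarith
  have hf1 : (-8 : ℤ) ≤ ⌊q⌋ := Int.le_floor.2 (by push_cast; linarith)
  have hf2 : ⌊q⌋ < (8 : ℤ) := by
    have : (⌊q⌋ : ℝ) < 8 := lt_of_le_of_lt hfl hq8
    exact_mod_cast this
  rcases lt_abs.1 h2 with h2 | h2
  · refine ⟨⌊q⌋, Finset.mem_Icc.2 ⟨hf1, by omega⟩, ?_⟩
    intro hs
    have e1 : c + (⌊q⌋ : ℝ) * (τ / 4) ≤ F x := by nlinarith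
    have e2 := hs.1 e1
    nlinarith
  · refine ⟨⌊q⌋ + 1, Finset.mem_Icc.2 ⟨by omega, by omega⟩, ?_⟩
    intro hs
    have e1 : c + ((⌊q⌋ + 1 : ℤ) : ℝ) * (τ / 4) ≤ F (flip i x) := by
      push_cast
      nlinarith
    have e2 := hs.2 e1
    push_cast at e2
    nlinarith

lemma sqrt_bd (X Y p u N : ℝ) (hX : X ≤ 2 * p * N) (hY : Y ≤ p * u * N) (hp : 0 ≤ p)
    (hu : 0 ≤ u) (hN : 0 ≤ N) : √X * √Y ≤ 3 / 2 * p * √u * N := by
  have h1 : √X * √Y ≤ √(2 * p * N) * √(p * u * N) :=
    mul_le_mul (Real.sqrt_le_sqrt hX) (Real.sqrt_le_sqrt hY) (Real.sqrt_nonneg _)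
      (Real.sqrt_nonneg _)
  refine h1.trans ?_
  rw [← Real.sqrt_mul (by positivity)]
  apply Real.sqrt_le_iff.2
  refine ⟨by positivity, ?_⟩
  have h2 : (3 / 2 * p * √u * N) ^ 2 = 9 / 4 * (p ^ 2 * u * N ^ 2) := by
    have := Real.sq_sqrt hu
    calc (3 / 2 * p * √u * N) ^ 2 = 9 / 4 * (p ^ 2 * √u ^ 2 * N ^ 2) := by ring
      _ = _ := by rw [this]
  rw [h2]
  have h3 : 0 ≤ p ^ 2 * u * N ^ 2 := by positivity
  nlinarith

/-- the terms with a large inner part -/
lemma fac_bd (hF : S_FAC) {U : Finset ι} {F : (ι → Bool) → ℝ} {gin gout : ι → (ι → Bool) → ℝ}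
    {τ η : ℝ} (hC : Cls U F gin gout τ η) (w : (ι → Bool) → ℝ) (hw0 : ∀ x, 0 ≤ w x)
    (hw : Off U w) (B : ι → (ι → Bool) → Prop) (hB : ∀ i ∈ U, Off U (B i)) :
    ∑ x, w x * ∑ i ∈ U, ind (B i x) * ind (τ / 4 ≤ |gin i x|) ≤
      η * ∑ x, w x * ∑ i ∈ U, ind (B i x) := by
  have e1 : ∑ x, w x * ∑ i ∈ U, ind (B i x) * ind (τ / 4 ≤ |gin i x|) =
      ∑ i ∈ U, ∑ x, (w x * ind (B i x)) * ind (τ / 4 ≤ |gin i x|) := by
    rw [sum_comm]
    refine sum_congr rfl fun x _ => ?_
    rw [mul_sum]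
    exact sum_congr rfl fun i _ => by ring
  have e2 : η * ∑ x, w x * ∑ i ∈ U, ind (B i x) = ∑ i ∈ U, η * ∑ x, (w x * ind (B i x)) := by
    rw [← mul_sum, sum_comm]
    congr 1
    refine sum_congr rfl fun x _ => ?_
    rw [mul_sum]
  rw [e1, e2]
  refine sum_le_sum fun i hi => ?_
  have hO : Off U (fun x => w x * ind (B i x)) := by
    intro x y hxy
    show w x * ind (B i x) = w y * ind (B i y)
    rw [hw x y hxy, hB i hi x y hxy]
  have hOn : On U (fun x => ind (τ / 4 ≤ |gin i x|)) := by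
    intro x y hxy
    show ind (τ / 4 ≤ |gin i x|) = ind (τ / 4 ≤ |gin i y|)
    rw [hC.on i hi x y hxy]
  have h1 := hF ι U (fun x => w x * ind (B i x)) (fun x => ind (τ / 4 ≤ |gin i x|)) hO hOn
  have h2 := hC.big i hi
  have hN : (0 : ℝ) < 2 ^ Fintype.card ι := by positivity
  have h3 : 0 ≤ ∑ x, w x * ind (B i x) :=
    sum_nonneg fun x _ => mul_nonneg (hw0 x) (ind_nonneg _)
  have h4 : (2 : ℝ) ^ Fintype.card ι * ∑ x, (w x * ind (B i x)) * ind (τ / 4 ≤ |gin i x|) ≤
      2 ^ Fintype.card ι * (η * ∑ x, (w x * ind (B i x))) := by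
    calc _ = (∑ x, w x * ind (B i x)) * ∑ x, ind (τ / 4 ≤ |gin i x|) := h1
      _ ≤ (∑ x, w x * ind (B i x)) * (η * 2 ^ Fintype.card ι) := mul_le_mul_of_nonneg_left h2 h3
      _ = _ := by ring
  exact le_of_mul_le_mul_left h4 hN

/-- the weighted unate lemma for one class -/
lemma un_bd (hU : S_UN) (hF : S_FAC) {U : Finset ι} {F : (ι → Bool) → ℝ}
    {gin gout : ι → (ι → Bool) → ℝ} {τ η : ℝ} (hC : Cls U F gin gout τ η)
    (w : (ι → Bool) → ℝ) (hw0 : ∀ x, 0 ≤ w x) (hw : Off U w)
    (B : ι → (ι → Bool) → Prop) (hB : ∀ i ∈ U, Off U (B i)) (c : ℝ)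
    (hmis : ∀ i ∈ U, ∀ x, B i x → |gin i x| < τ / 4 → 0 ≤ sn (gout i x) * D i F x) :
    ∑ x, w x * ∑ i ∈ U, ind (B i x ∧ sens c F i x) ≤
      √(∑ x, w x) * √(∑ x, w x * ∑ i ∈ U, ind (B i x)) +
        2 * (η * ∑ x, w x * ∑ i ∈ U, ind (B i x)) := by
  have h1 := hU ι U w B (fun i x => sn (gout i x)) F c hw0 hw hB
    (by
      intro i hi x y hxy
      show sn (gout i x) = sn (gout i y)
      rw [hC.off i hi x y hxy])
    (fun i _ x => sn_pm _)
  refine h1.trans ?_
  have h2 := fac_bd hF hC w hw0 hw B hB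
  have h3 : ∑ x, w x * ∑ i ∈ U, ind (B i x ∧ sens c F i x ∧ sn (gout i x) * D i F x < 0) ≤
      ∑ x, w x * ∑ i ∈ U, ind (B i x) * ind (τ / 4 ≤ |gin i x|) := by
    refine sum_le_sum fun x _ => mul_le_mul_of_nonneg_left ?_ (hw0 x)
    refine sum_le_sum fun i hi => ?_
    rw [← ind_and]
    apply ind_mono
    rintro ⟨hb, _, hm⟩
    refine ⟨hb, ?_⟩
    by_contra hcon
    push Not at hcon
    exact absurd (hmis i hi x hb hcon) (not_le.2 hm)
  linarith

end CLS

open CLS in
theorem t_CLS : S_CLS := by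
  intro hUN hFAC ι _ _ U F gin gout τ η p l l' c hC hp hpo hh1 hh2
  have hτ := hC.τ0
  have hη := hC.η0
  obtain ⟨N, hN⟩ : ∃ N : ℝ, N = 2 ^ Fintype.card ι := ⟨_, rfl⟩
  have hN0 : 0 < N := by rw [hN]; positivity
  have hcard : ((Finset.univ : Finset (ι → Bool)).card : ℝ) = N := by rw [hN]; exact card_cube
  rw [← hN] at hpo ⊢
  obtain ⟨u, hu⟩ : ∃ u : ℝ, u = (U.card : ℝ) := ⟨_, rfl⟩
  have hu0 : 0 ≤ u := by rw [hu]; positivity
  rw [← hu]
  have hbig : ∀ i ∈ U, ∑ x, ind (τ / 4 ≤ |gin i x|) ≤ η * N := by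
    intro i hi
    have := hC.big i hi
    rwa [← hN] at this
  -- the events
  obtain ⟨b, hb⟩ : ∃ b : ι → (ι → Bool) → Prop, b = fun i x => l' ≤ |gout i x| ∧
    |gout i x| < 9 * τ / 4 := ⟨_, rfl⟩
  obtain ⟨B, hB⟩ : ∃ B : ι → (ι → Bool) → Prop, B = fun i x => τ / 2 ≤ |gout i x| := ⟨_, rfl⟩
  obtain ⟨us, hus⟩ : ∃ us : (ι → Bool) → ℝ, us = fun x => ∑ i ∈ U, ind (b i x) := ⟨_, rfl⟩
  obtain ⟨bs, hbs⟩ : ∃ bs : (ι → Bool) → ℝ, bs = fun x => ∑ i ∈ U, ind (B i x) := ⟨_, rfl⟩
  have hboff : ∀ i ∈ U, Off U (b i) := by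
    intro i hi x y hxy
    rw [hb]
    show (_ ∧ _) = (_ ∧ _)
    rw [hC.off i hi x y hxy]
  have hBoff : ∀ i ∈ U, Off U (B i) := by
    intro i hi x y hxy
    rw [hB]
    show (_ ≤ _) = (_ ≤ _)
    rw [hC.off i hi x y hxy]
  have husoff : Off U us := by
    intro x y hxy
    rw [hus]
    exact sum_congr rfl fun i hi => by rw [hboff i hi x y hxy]
  have hbsoff : Off U bs := by
    intro x y hxy
    rw [hbs]
    exact sum_congr rfl fun i hi => by rw [hBoff i hi x y hxy]
  have hus0 : ∀ x, 0 ≤ us x := fun x => by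
    rw [hus]; exact sum_nonneg fun i _ => ind_nonneg _
  have hbs0 : ∀ x, 0 ≤ bs x := fun x => by
    rw [hbs]; exact sum_nonneg fun i _ => ind_nonneg _
  have hcardU : ∑ i ∈ U, (1 : ℝ) = u := by rw [hu]; simp
  have husu : ∀ x, us x ≤ u := fun x => by
    rw [hus, ← hcardU]; exact sum_le_sum fun i _ => ind_le_one _
  have hussum : ∑ x, us x ≤ p * u * N := by
    rw [hus, sum_comm]
    calc ∑ i ∈ U, ∑ x, ind (b i x) ≤ ∑ i ∈ U, p * N := by
          refine sum_le_sum fun i hi => le_trans (sum_le_sum fun x _ => ?_) (hpo i hi)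
          apply ind_mono
          rw [hb]
          exact fun h => h.2
      _ = p * u * N := by rw [sum_const, nsmul_eq_mul, ← hu]; ring
  have hussumN : ∑ x, us x ≤ u * N := by
    calc ∑ x, us x ≤ ∑ _x : ι → Bool, u := sum_le_sum fun x _ => husu x
      _ = u * N := by rw [sum_const, nsmul_eq_mul, hcard]; ring
  have hesum : ∑ x, ∑ i ∈ U, ind (τ / 4 ≤ |gin i x|) ≤ η * u * N := by
    rw [sum_comm]
    calc ∑ i ∈ U, ∑ x, ind (τ / 4 ≤ |gin i x|) ≤ ∑ i ∈ U, η * N :=
          sum_le_sum fun i hi => hbig i hi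
      _ = η * u * N := by rw [sum_const, nsmul_eq_mul, ← hu]; ring
  rcases U.eq_empty_or_nonempty with hUe | hUne
  · rw [hUe]
    simp only [sum_empty, sum_const_zero]
    positivity
  have hupos : 0 < u := by
    rw [hu]
    exact_mod_cast card_pos.2 hUne
  -- the points with few large outer parts
  obtain ⟨A, hA⟩ : ∃ A : (ι → Bool) → Prop, A = fun x => bs x < u / 2 := ⟨_, rfl⟩
  have hAsum : ∑ x, ind (A x) ≤ 2 * p * N := by
    have h1 : u / 2 * ∑ x, ind (A x) ≤ p * u * N := by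
      calc u / 2 * ∑ x, ind (A x) = ∑ x, u / 2 * ind (A x) := by rw [mul_sum]
        _ ≤ ∑ x, ∑ i ∈ U, ind (|gout i x| < 9 * τ / 4) := by
          refine sum_le_sum fun x _ => ?_
          by_cases hAx : A x
          · rw [ind_pos hAx, mul_one]
            have h2 : bs x < u / 2 := by
              rw [hA] at hAx
              exact hAx
            have h3 : u ≤ bs x + ∑ i ∈ U, ind (|gout i x| < 9 * τ / 4) := by
              rw [hbs, ← sum_add_distrib, ← hcardU]
              refine sum_le_sum fun i _ => ?_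
              by_cases hBx : B i x
              · rw [ind_pos hBx]
                linarith [ind_nonneg (|gout i x| < 9 * τ / 4)]
              · have : |gout i x| < 9 * τ / 4 := by
                  rw [hB] at hBx
                  have h4 : |gout i x| < τ / 2 := not_le.1 hBx
                  linarith
                rw [ind_pos this]
                linarith [ind_nonneg (B i x)]
            linarith
          · rw [ind_neg hAx, mul_zero]
            exact sum_nonneg fun i _ => ind_nonneg _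
        _ = ∑ i ∈ U, ∑ x, ind (|gout i x| < 9 * τ / 4) := sum_comm
        _ ≤ ∑ i ∈ U, p * N := sum_le_sum fun i hi => hpo i hi
        _ = p * u * N := by rw [sum_const, nsmul_eq_mul, ← hu]; ring
    have h2 : u / 2 * ∑ x, ind (A x) ≤ u / 2 * (2 * p * N) := by
      refine h1.trans (le_of_eq ?_)
      ring
    exact le_of_mul_le_mul_left h2 (by positivity)
  have hAoff : Off U A := by
    intro x y hxy
    rw [hA]
    show (_ < _) = (_ < _)
    rw [hbsoff x y hxy]
  -- the weights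
  obtain ⟨w, hw⟩ : ∃ w : (ι → Bool) → ℝ, w = fun x => ind (¬ A x) * (us x / bs x) := ⟨_, rfl⟩
  have hw0 : ∀ x, 0 ≤ w x := fun x => by
    rw [hw]; exact mul_nonneg (ind_nonneg _) (div_nonneg (hus0 x) (hbs0 x))
  have hwoff : Off U w := by
    intro x y hxy
    rw [hw]
    show ind (¬ A x) * (us x / bs x) = ind (¬ A y) * (us y / bs y)
    rw [hAoff x y hxy, husoff x y hxy, hbsoff x y hxy]
  have hwbs : ∀ x, w x * bs x = ind (¬ A x) * us x := by
    intro x
    rw [hw]
    show ind (¬ A x) * (us x / bs x) * bs x = ind (¬ A x) * us x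
    by_cases hAx : A x
    · rw [ind_neg (not_not.2 hAx)]
      ring
    · have h2 : u / 2 ≤ bs x := by
        rw [hA] at hAx
        exact not_lt.1 hAx
      have h3 : bs x ≠ 0 := by
        have : 0 < bs x := lt_of_lt_of_le (by positivity) h2
        exact this.ne'
      rw [mul_assoc, div_mul_cancel₀ _ h3]
  have hwle : ∀ x, w x ≤ 2 / u * us x := by
    intro x
    by_cases hAx : A x
    · rw [hw]
      show ind (¬ A x) * (us x / bs x) ≤ _
      rw [ind_neg (not_not.2 hAx), zero_mul]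
      exact mul_nonneg (by positivity) (hus0 x)
    · have h2 : u / 2 ≤ bs x := by
        rw [hA] at hAx
        exact not_lt.1 hAx
      have h3 : 0 < bs x := lt_of_lt_of_le (by positivity) h2
      rw [hw]
      show ind (¬ A x) * (us x / bs x) ≤ _
      rw [ind_pos hAx, one_mul, div_le_iff₀ h3]
      have h4 : us x * (u / 2) ≤ us x * bs x := mul_le_mul_of_nonneg_left h2 (hus0 x)
      have h5 : 2 / u * us x * bs x = 2 / u * (us x * bs x) := by ring
      rw [h5]
      calc us x = 2 / u * (us x * (u / 2)) := by field_simp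
        _ ≤ 2 / u * (us x * bs x) := mul_le_mul_of_nonneg_left h4 (by positivity)
  have hwsum : ∑ x, w x ≤ 2 * p * N := by
    calc ∑ x, w x ≤ ∑ x, 2 / u * us x := sum_le_sum fun x _ => hwle x
      _ = 2 / u * ∑ x, us x := by rw [mul_sum]
      _ ≤ 2 / u * (p * u * N) := mul_le_mul_of_nonneg_left hussum (by positivity)
      _ = 2 * p * N := by field_simp
  have hwbsle : ∀ x, w x * bs x ≤ us x := by
    intro x
    rw [hwbs x]
    calc ind (¬ A x) * us x ≤ 1 * us x := mul_le_mul_of_nonneg_right (ind_le_one _) (hus0 x)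
      _ = us x := one_mul _
  have hwb1 : ∑ x, w x * ∑ i ∈ U, ind (B i x) ≤ p * u * N := by
    refine le_trans (sum_le_sum fun x _ => ?_) hussum
    have := hwbsle x
    rw [hbs] at this
    exact this
  have hwb2 : ∑ x, w x * ∑ i ∈ U, ind (B i x) ≤ u * N := by
    refine le_trans (sum_le_sum fun x _ => ?_) hussumN
    have := hwbsle x
    rw [hbs] at this
    exact this
  have hA1 : ∑ x, ind (A x) * ∑ i ∈ U, ind (b i x) ≤ p * u * N := by
    refine le_trans (sum_le_sum fun x _ => ?_) hussum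
    have h1 : ind (A x) * us x ≤ 1 * us x := mul_le_mul_of_nonneg_right (ind_le_one _) (hus0 x)
    rw [one_mul] at h1
    refine le_trans (le_of_eq ?_) h1
    rw [hus]
  have hA2 : ∑ x, ind (A x) * ∑ i ∈ U, ind (b i x) ≤ u * N := by
    refine le_trans (sum_le_sum fun x _ => ?_) hussumN
    have h1 : ind (A x) * us x ≤ 1 * us x := mul_le_mul_of_nonneg_right (ind_le_one _) (hus0 x)
    rw [one_mul] at h1
    refine le_trans (le_of_eq ?_) h1
    rw [hus]
  -- part (b)
  have partb : ∑ x, ind (A x) * ∑ i ∈ U, ind (b i x ∧ sens c F i x) ≤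
      3 / 2 * p * √u * N + 2 * (η * (u * N)) := by
    refine (un_bd hUN hFAC hC (fun x => ind (A x)) (fun x => ind_nonneg _)
      (by
        intro x y hxy
        show ind (A x) = ind (A y)
        rw [hAoff x y hxy]) b hboff c
      (by
        intro i hi x hbx hg
        rw [hb] at hbx
        exact hh2 i hi x hbx.1 hg)).trans ?_
    exact add_le_add (sqrt_bd _ _ p u N hAsum hA1 hp hu0 hN0.le)
      (mul_le_mul_of_nonneg_left (mul_le_mul_of_nonneg_left hA2 hη) (by norm_num))
  -- the mismatches in part (c)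
  have hmisB : ∀ i ∈ U, ∀ x, B i x → |gin i x| < τ / 4 → 0 ≤ sn (gout i x) * D i F x := by
    intro i hi x hBx hg
    rw [hB] at hBx
    have h1 : τ / 2 ≤ |gout i x| := hBx
    rw [hC.eq i hi x]
    obtain ⟨h2, h3⟩ := abs_lt.1 hg
    unfold sn
    split_ifs with h4
    · rw [abs_of_nonneg h4] at h1
      linarith
    · rw [abs_of_neg (not_le.1 h4)] at h1
      linarith
  have partc1 : ∀ c' : ℝ, ∑ x, w x * ∑ i ∈ U, ind (B i x ∧ sens c' F i x) ≤
      3 / 2 * p * √u * N + 2 * (η * (u * N)) := by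
    intro c'
    refine (un_bd hUN hFAC hC w hw0 hwoff B hBoff c' hmisB).trans ?_
    exact add_le_add (sqrt_bd _ _ p u N hwsum hwb1 hp hu0 hN0.le)
      (mul_le_mul_of_nonneg_left (mul_le_mul_of_nonneg_left hwb2 hη) (by norm_num))
  have partc2 : ∑ x, w x * ∑ i ∈ U, ind (B i x) * ind (τ / 4 ≤ |gin i x|) ≤ η * (u * N) :=
    (fac_bd hFAC hC w hw0 hwoff B hBoff).trans (mul_le_mul_of_nonneg_left hwb2 hη)
  -- part (c)
  have partc : ∑ x, ind (¬ A x) * us x * ind (|F x - c| < 2 * τ) ≤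
      ∑ x, w x * ∑ i ∈ U, ind (B i x) * ind (τ / 4 ≤ |gin i x|) +
        ∑ j ∈ Finset.Icc (-8 : ℤ) 8,
          ∑ x, w x * ∑ i ∈ U, ind (B i x ∧ sens (c + j * (τ / 4)) F i x) := by
    rw [sum_comm, ← sum_add_distrib]
    refine sum_le_sum fun x _ => ?_
    have hR : 0 ≤ w x * ∑ i ∈ U, ind (B i x) * ind (τ / 4 ≤ |gin i x|) +
        ∑ j ∈ Finset.Icc (-8 : ℤ) 8,
          w x * ∑ i ∈ U, ind (B i x ∧ sens (c + j * (τ / 4)) F i x) :=
      add_nonneg (mul_nonneg (hw0 x) (sum_nonneg fun i _ => mul_nonneg (ind_nonneg _)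
        (ind_nonneg _))) (sum_nonneg fun j _ => mul_nonneg (hw0 x)
        (sum_nonneg fun i _ => ind_nonneg _))
    by_cases hFc : |F x - c| < 2 * τ
    · rw [ind_pos hFc, mul_one, ← hwbs x, ← mul_sum, ← mul_add]
      refine mul_le_mul_of_nonneg_left ?_ (hw0 x)
      rw [sum_comm, ← sum_add_distrib, hbs]
      refine sum_le_sum fun i hi => ?_
      by_cases hBx : B i x
      · rw [ind_pos hBx, one_mul]
        by_cases hg : τ / 4 ≤ |gin i x|
        · rw [ind_pos hg]
          linarith [sum_nonneg (s := Finset.Icc (-8 : ℤ) 8)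
            (f := fun j : ℤ => ind (B i x ∧ sens (c + j * (τ / 4)) F i x))
            (fun j _ => ind_nonneg _)]
        · have hD : τ / 4 < |D i F x| := by
            rw [hC.eq i hi x]
            have h1 : τ / 2 ≤ |gout i x| := by
              rw [hB] at hBx
              exact hBx
            have h2 : |gout i x| ≤ |gin i x + gout i x| + |gin i x| := by
              have h5 := abs_sub (gin i x + gout i x) (gin i x)
              have h6 : gin i x + gout i x - gin i x = gout i x := by ring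
              rw [h6] at h5
              exact h5
            have h3 := not_le.1 hg
            linarith
          obtain ⟨j, hj, hs⟩ := thr F i x τ c hτ hFc hD
          have h4 : ind (B i x ∧ sens (c + j * (τ / 4)) F i x) ≤
              ∑ j ∈ Finset.Icc (-8 : ℤ) 8, ind (B i x ∧ sens (c + j * (τ / 4)) F i x) :=
            single_le_sum (f := fun j : ℤ => ind (B i x ∧ sens (c + j * (τ / 4)) F i x))
              (fun j _ => ind_nonneg _) hj
          rw [ind_pos (⟨hBx, hs⟩ : B i x ∧ sens (c + j * (τ / 4)) F i x)] at h4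
          linarith [ind_nonneg (τ / 4 ≤ |gin i x|)]
      · rw [ind_neg hBx, zero_mul, zero_add]
        exact sum_nonneg fun j _ => ind_nonneg _
    · rw [ind_neg hFc, mul_zero]
      exact hR
  have partc3 : ∑ j ∈ Finset.Icc (-8 : ℤ) 8,
      ∑ x, w x * ∑ i ∈ U, ind (B i x ∧ sens (c + j * (τ / 4)) F i x) ≤
      17 * (3 / 2 * p * √u * N + 2 * (η * (u * N))) := by
    refine (sum_le_sum fun j _ => partc1 _).trans (le_of_eq ?_)
    have h17 : (Finset.Icc (-8 : ℤ) 8).card = 17 := by decide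
    rw [sum_const, h17, nsmul_eq_mul]
    norm_num
  -- the pointwise decomposition
  have hmain : ∑ x, ∑ i ∈ U, ind (sens c F i x ∧ l ≤ |D i F x| ∧ |D i F x| < 2 * τ) ≤
      ∑ x, ∑ i ∈ U, ind (τ / 4 ≤ |gin i x|) +
        ∑ x, ind (A x) * ∑ i ∈ U, ind (b i x ∧ sens c F i x) +
        ∑ x, ind (¬ A x) * us x * ind (|F x - c| < 2 * τ) := by
    rw [← sum_add_distrib, ← sum_add_distrib]
    refine sum_le_sum fun x _ => ?_
    have e1 : ind (¬ A x) * us x * ind (|F x - c| < 2 * τ) =
        ∑ i ∈ U, ind (¬ A x) * ind (b i x) * ind (|F x - c| < 2 * τ) := by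
      rw [hus, mul_sum, sum_mul]
    rw [e1, mul_sum, ← sum_add_distrib, ← sum_add_distrib]
    refine sum_le_sum fun i hi => ?_
    have n1 := ind_nonneg (τ / 4 ≤ |gin i x|)
    have n2 := mul_nonneg (ind_nonneg (A x)) (ind_nonneg (b i x ∧ sens c F i x))
    have n3 := mul_nonneg (mul_nonneg (ind_nonneg (¬ A x)) (ind_nonneg (b i x)))
      (ind_nonneg (|F x - c| < 2 * τ))
    by_cases hev : sens c F i x ∧ l ≤ |D i F x| ∧ |D i F x| < 2 * τ
    · rw [ind_pos hev]
      obtain ⟨hs, hl, hD⟩ := hev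
      by_cases hg : τ / 4 ≤ |gin i x|
      · rw [ind_pos hg]
        linarith
      · have hg' := not_le.1 hg
        have hbx : b i x := by
          rw [hb]
          refine ⟨hh1 i hi x hl hg', ?_⟩
          have h5 := abs_sub (gin i x + gout i x) (gin i x)
          have h6 : gin i x + gout i x - gin i x = gout i x := by ring
          rw [h6, ← hC.eq i hi x] at h5
          linarith
        by_cases hAx : A x
        · rw [ind_pos hAx, ind_pos (⟨hbx, hs⟩ : b i x ∧ sens c F i x)]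
          linarith
        · have hFc : |F x - c| < 2 * τ := by
            refine lt_of_le_of_lt ?_ hD
            rw [← abs_flip]
            unfold sens at hs
            by_cases h1 : c ≤ F x
            · have h2 : ¬ c ≤ F (flip i x) := fun h => hs ⟨fun _ => h, fun _ => h1⟩
              rw [abs_of_nonneg (by linarith)]
              refine le_trans ?_ (le_abs_self _)
              linarith
            · have h2 : c ≤ F (flip i x) := by
                by_contra h
                exact hs ⟨fun h' => absurd h' h1, fun h' => absurd h' h⟩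
              rw [abs_of_neg (by linarith)]
              refine le_trans ?_ (neg_le_abs _)
              linarith
          rw [ind_pos hAx, ind_pos hbx, ind_pos hFc]
          linarith
    · rw [ind_neg hev]
      linarith
  have hpu : 0 ≤ p * √u * N := by positivity
  have hηu : 0 ≤ η * u * N := by positivity
  calc _ ≤ _ := hmain
    _ ≤ η * u * N + (3 / 2 * p * √u * N + 2 * (η * (u * N))) +
        (η * (u * N) + 17 * (3 / 2 * p * √u * N + 2 * (η * (u * N)))) := by
      refine add_le_add (add_le_add hesum partb) (partc.trans (add_le_add partc2 partc3))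
    _ ≤ (34 * p * √u + 50 * η * u) * N := by nlinarith

end Pool.Agent.NH83.QI

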