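import Pool.Agent.NH83.QI.Defs

/-!
# Project QI, JH: decomposition of the differences
-/

set_option autoImplicit false
set_option linter.unusedSectionVars false

namespace Pool.Agent.NH83.QI

open Finset

namespace DEC

variable {ι : Type} [Fintype ι] [DecidableEq ι]

theorem mem_nb (a : ι → ι → Prop) (V : Finset ι) (i j : ι) :
    j ∈ nb a V i ↔ j ∈ V ∧ j ≠ i ∧ a i j := by
  classical
  unfold nb
  simp only [Finset.mem_filter]

theorem hs_flip_notMem (T : Finset ι) (j : ι) (hj : j ∉ T) (x : ι → Bool) :
    hs T (flip j x) = hs T x := by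
  unfold hs
  congr 1
  apply Finset.sum_congr rfl
  intro l hl
  rw [flip_ne (fun e => hj (by rw [← e]; exact hl))]

theorem hs_flip_mem (T : Finset ι) (j : ι) (hj : j ∈ T) (x : ι → Bool) :
    hs T (flip j x) = hs T x - sg (x j) := by
  unfold hs
  rw [← Finset.add_sum_erase T (fun l => sg (flip j x l)) hj,
    ← Finset.add_sum_erase T (fun l => sg (x l)) hj]
  have e : ∑ l ∈ T.erase j, sg (flip j x l) = ∑ l ∈ T.erase j, sg (x l) := by
    apply Finset.sum_congr rfl
    intro l hl
    rw [flip_ne (Finset.ne_of_mem_erase hl)]
  rw [e, flip_same, sg_not]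
  ring

theorem off_of_flip (S : Finset ι) (h : (ι → Bool) → ℝ)
    (hf : ∀ j ∈ S, ∀ x, h (flip j x) = h x) : Off S h := by
  intro x y hxy
  have key : ∀ T : Finset ι, T ⊆ S → h (T.piecewise y x) = h x := by
    intro T
    induction T using Finset.induction_on with
    | empty =>
      intro _
      rw [Finset.piecewise_empty]
    | insert j T' hj ih =>
      intro hT
      have ih' := ih ((Finset.subset_insert j T').trans hT)
      rw [Finset.piecewise_insert]
      have hx : T'.piecewise y x j = x j := Finset.piecewise_eq_of_notMem _ _ _ hj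
      by_cases e : y j = x j
      · have : Function.update (T'.piecewise y x) j (y j) = T'.piecewise y x := by
          rw [e, ← hx]
          exact Function.update_eq_self _ _
        rw [this, ih']
      · have : Function.update (T'.piecewise y x) j (y j) = flip j (T'.piecewise y x) := by
          unfold flip
          rw [hx]
          congr 1
          cases h1 : y j <;> cases h2 : x j <;> simp_all
        rw [this, hf j (hT (Finset.mem_insert_self j T')), ih']
  have hS : S.piecewise y x = y := by
    funext l
    by_cases hl : l ∈ S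
    · exact Finset.piecewise_eq_of_mem _ _ _ hl
    · rw [Finset.piecewise_eq_of_notMem _ _ _ hl]
      exact hxy l hl
  rw [← key S (le_refl S), hS]

end DEC

open DEC in
theorem t_DEC : S_DEC := by
  intro ι _ _ S U a F hQ hU i hi
  obtain ⟨-, hq⟩ := hQ
  refine ⟨?_, fun x => D i F x - hs (nb a S i) x, ?_, ?_, ?_⟩
  · intro x y hxy
    unfold hs
    congr 1
    apply Finset.sum_congr rfl
    intro j hj
    rw [hxy j ((mem_nb a U i j).1 hj).1]
  · apply off_of_flip
    intro j hj x
    by_cases e : j = i
    · rw [e, D_flip_self, hs_flip_notMem _ _ (fun h => ((mem_nb a S i i).1 h).2.1 rfl)]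
    · have h1 := D_sg j (D i F) x
      rw [hq i (hU hi) j hj (fun h => e h.symm) x] at h1
      by_cases ha : a i j
      · rw [ind_pos ha] at h1
        rw [hs_flip_mem _ _ ((mem_nb a S i j).2 ⟨hj, e, ha⟩)]
        linarith
      · rw [ind_neg ha] at h1
        rw [hs_flip_notMem _ _ (fun h => ha ((mem_nb a S i j).1 h).2.2)]
        linarith
  · intro x
    have hsplit : hs (nb a S i) x = hs (nb a U i) x + hs (nb a S i \ U) x := by
      unfold hs
      have e : nb a U i = nb a S i ∩ U := by
        ext j
        rw [Finset.mem_inter, mem_nb, mem_nb]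
        constructor
        · rintro ⟨h1, h2⟩
          exact ⟨⟨hU h1, h2⟩, h1⟩
        · rintro ⟨⟨_, h2⟩, h1⟩
          exact ⟨h1, h2⟩
      rw [e, ← Finset.sum_inter_add_sum_sdiff (nb a S i) U]
      ring
    dsimp only
    rw [hsplit]
    ring
  · have hoff : Off S (fun x => D i F x - hs (nb a S i) x) := by
      apply off_of_flip
      intro j hj x
      by_cases e : j = i
      · rw [e, D_flip_self, hs_flip_notMem _ _ (fun h => ((mem_nb a S i i).1 h).2.1 rfl)]
      · have h1 := D_sg j (D i F) x
        rw [hq i (hU hi) j hj (fun h => e h.symm) x] at h1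
        by_cases ha : a i j
        · rw [ind_pos ha] at h1
          rw [hs_flip_mem _ _ ((mem_nb a S i j).2 ⟨hj, e, ha⟩)]
          linarith
        · rw [ind_neg ha] at h1
          rw [hs_flip_notMem _ _ (fun h => ha ((mem_nb a S i j).1 h).2.2)]
          linarith
    intro x y hxy
    have h1 := hoff x y (fun j hj => hxy j (fun h => hj (hU h)))
    dsimp only at h1 ⊢
    have hsplit : ∀ x, hs (nb a S i) x = hs (nb a U i) x + hs (nb a S i \ U) x := by
      intro x
      unfold hs
      have e : nb a U i = nb a S i ∩ U := by
        ext j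
        rw [Finset.mem_inter, mem_nb, mem_nb]
        constructor
        · rintro ⟨h1, h2⟩
          exact ⟨⟨hU h1, h2⟩, h1⟩
        · rintro ⟨⟨_, h2⟩, h1⟩
          exact ⟨h1, h2⟩
      rw [e, ← Finset.sum_inter_add_sum_sdiff (nb a S i) U]
      ring
    have h2 : hs (nb a S i \ U) x = hs (nb a S i \ U) y := by
      unfold hs
      congr 1
      apply Finset.sum_congr rfl
      intro j hj
      rw [hxy j (Finset.mem_sdiff.1 hj).2]
    have h3 := hsplit x
    have h4 := hsplit y
    linarith

end Pool.Agent.NH83.QI
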