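import Pool.Agent.NH83.QI.Defs

/-!
# QI-J: one degree class, all scales
-/

set_option autoImplicit false
set_option linter.unusedSectionVars false
set_option linter.unusedVariables false

namespace Pool.Agent.NH83.QI

open Finset

namespace DEG

lemma sn_mul_self (z : ℝ) : sn z * z = |z| := by
  unfold sn
  split_ifs with h
  · rw [one_mul, abs_of_nonneg h]
  · rw [not_le] at h
    rw [abs_of_neg h]
    ring

lemma sn_add (z g : ℝ) : |z| - |g| ≤ sn z * (g + z) := by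
  rw [mul_add, sn_mul_self]
  have h : -|g| ≤ sn z * g := by
    rcases sn_pm z with h | h
    · rw [h, one_mul]
      exact neg_abs_le g
    · rw [h]
      have := le_abs_self g
      linarith
  linarith

variable {ι : Type} [Fintype ι] [DecidableEq ι]

/-- the lower limit of the scale `k` -/
noncomputable def lk (k : ℕ) : ℝ := if k = 0 then 0 else 2 ^ k

lemma split_scales (c : ℝ) (F : (ι → Bool) → ℝ) (i : ι) (x : ι → Bool) (K : ℕ) :
    ind (sens c F i x) ≤ ∑ k ∈ range (K + 1),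
      ind (sens c F i x ∧ lk k ≤ |D i F x| ∧ |D i F x| < 2 * 2 ^ k) +
        ind (sens c F i x ∧ 2 * 2 ^ K ≤ |D i F x|) := by
  induction K with
  | zero =>
    rw [sum_range_one]
    apply ind_or
    intro h
    rcases lt_or_ge (|D i F x|) (2 * 2 ^ 0) with h1 | h1
    · left
      refine ⟨h, ?_, h1⟩
      unfold lk
      rw [if_pos rfl]
      exact abs_nonneg _
    · right
      exact ⟨h, h1⟩
  | succ K ih =>
    rw [sum_range_succ]
    refine ih.trans ?_
    rw [add_assoc]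
    apply add_le_add le_rfl
    apply ind_or
    rintro ⟨h, h1⟩
    rcases lt_or_ge (|D i F x|) (2 * 2 ^ (K + 1)) with h2 | h2
    · left
      refine ⟨h, ?_, h2⟩
      unfold lk
      rw [if_neg (by omega), pow_succ, mul_comm]
      exact h1
    · right
      exact ⟨h, h2⟩

lemma sum_sqrt {M : ℕ} (V : Finset ι) (φ : ι → Fin M) :
    ∑ c : Fin M, √((V.filter (fun i => φ i = c)).card : ℝ) ≤ √(M * (V.card : ℝ)) := by
  apply Real.le_sqrt_of_sq_le
  have h1 := sq_sum_le_card_mul_sum_sq (s := (univ : Finset (Fin M)))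
    (f := fun c => √((V.filter (fun i => φ i = c)).card : ℝ))
  refine h1.trans ?_
  rw [card_univ, Fintype.card_fin]
  apply mul_le_mul_of_nonneg_left _ (Nat.cast_nonneg _)
  have h2 : ∀ c : Fin M, √((V.filter (fun i => φ i = c)).card : ℝ) ^ 2 =
      ((V.filter (fun i => φ i = c)).card : ℝ) := fun c => Real.sq_sqrt (Nat.cast_nonneg _)
  simp only [h2]
  rw [← Nat.cast_sum]
  apply le_of_eq
  congr 1
  exact (card_eq_sum_card_fiberwise (fun i _ => mem_univ (φ i))).symm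

lemma sum_card {M : ℕ} (V : Finset ι) (φ : ι → Fin M) :
    ∑ c : Fin M, ((V.filter (fun i => φ i = c)).card : ℝ) = (V.card : ℝ) := by
  rw [← Nat.cast_sum]
  congr 1
  exact (card_eq_sum_card_fiberwise (fun i _ => mem_univ (φ i))).symm

lemma sum_classes {M : ℕ} (V : Finset ι) (φ : ι → Fin M) (g : (ι → Bool) → ι → ℝ) :
    ∑ x, ∑ i ∈ V, g x i = ∑ c : Fin M, ∑ x, ∑ i ∈ V.filter (fun i => φ i = c), g x i := by
  have h : ∀ x, ∑ i ∈ V, g x i = ∑ c : Fin M, ∑ i ∈ V.filter (fun i => φ i = c), g x i :=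
    fun x => (sum_fiberwise V φ (g x)).symm
  rw [sum_congr rfl fun x _ => h x]
  exact sum_comm

/-- one scale -/
lemma scale (hUN : S_UN) (hFAC : S_FAC) (hCLS : S_CLS) (S V : Finset ι)
    (a : ι → ι → Prop) (F : (ι → Bool) → ℝ) (d Γ c : ℝ) (k : ℕ) (hd : (4 : ℝ) ^ k ≤ d)
    (hΓ : 6 ≤ Γ) (M : ℕ) (φ : ι → Fin M) (hM : (M : ℝ) ≤ 3 * d * Γ / (2 ^ k) ^ 2)
    (hP : ∀ c : Fin M,
      Cls (V.filter (fun i => φ i = c)) F (fun i => hs (nb a (V.filter (fun i => φ i = c)) i))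
        (fun i x => D i F x - hs (nb a (V.filter (fun i => φ i = c)) i) x) (2 ^ k)
        (2 * Real.exp (-Γ / 8)) ∧
      (∀ i ∈ V.filter (fun i => φ i = c),
        ∑ x, ind (|D i F x - hs (nb a (V.filter (fun i => φ i = c)) i) x| < 9 * 2 ^ k / 4) ≤
        8 * 2 ^ k / √d * 2 ^ Fintype.card ι) ∧
      ((2 : ℝ) ^ k = 1 → ∀ i ∈ V.filter (fun i => φ i = c), ∀ x,
        hs (nb a (V.filter (fun i => φ i = c)) i) x = 0)) :
    ∑ x, ∑ i ∈ V, ind (sens c F i x ∧ lk k ≤ |D i F x| ∧ |D i F x| < 2 * 2 ^ k) ≤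
      (472 * √(Γ * V.card) + 100 * Real.exp (-Γ / 8) * V.card) * 2 ^ Fintype.card ι := by
  have hk0 : (0 : ℝ) < 2 ^ k := by positivity
  have h4 : (0 : ℝ) < 4 ^ k := by positivity
  have hd0 : 0 < d := lt_of_lt_of_le h4 hd
  rw [sum_classes V φ]
  set η : ℝ := 2 * Real.exp (-Γ / 8) with hη
  set p : ℝ := 8 * 2 ^ k / √d with hp
  have hp0 : 0 ≤ p := by positivity
  have hone : ∀ c' : Fin M,
      ∑ x, ∑ i ∈ V.filter (fun i => φ i = c'),
        ind (sens c F i x ∧ lk k ≤ |D i F x| ∧ |D i F x| < 2 * 2 ^ k) ≤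
      (34 * p * √((V.filter (fun i => φ i = c')).card : ℝ) +
        50 * η * ((V.filter (fun i => φ i = c')).card : ℝ)) * 2 ^ Fintype.card ι := by
    intro c'
    obtain ⟨h1, h2, h3⟩ := hP c'
    rcases Nat.eq_zero_or_pos k with hk | hk
    · have hl : lk k = 0 := by unfold lk; rw [if_pos hk]
      rw [hl]
      have h4 : (2 : ℝ) ^ k = 1 := by rw [hk]; norm_num
      have h5 := h3 h4
      refine hCLS hUN hFAC ι _ F _ _ (2 ^ k) η p 0 0 c h1 hp0 h2 ?_ ?_
      · intro i _ x _ _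
        exact abs_nonneg _
      · intro i hi x _ _
        rw [h5 i hi x, sub_zero, sn_mul_self]
        exact abs_nonneg _
    · have hl : lk k = 2 ^ k := by unfold lk; rw [if_neg (by omega)]
      rw [hl]
      refine hCLS hUN hFAC ι _ F _ _ (2 ^ k) η p (2 ^ k) (3 * 2 ^ k / 4) c h1 hp0 h2 ?_ ?_
      · intro i hi x hl1 hl2
        have h5 := abs_sub_abs_le_abs_sub (D i F x)
          (hs (nb a (V.filter (fun i => φ i = c')) i) x)
        linarith
      · intro i hi x hl1 hl2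
        have h5 := sn_add (D i F x - hs (nb a (V.filter (fun i => φ i = c')) i) x)
          (hs (nb a (V.filter (fun i => φ i = c')) i) x)
        rw [add_sub_cancel] at h5
        refine le_trans ?_ h5
        linarith
  refine (sum_le_sum fun c' _ => hone c').trans ?_
  rw [← sum_mul]
  apply mul_le_mul_of_nonneg_right _ (by positivity)
  rw [sum_add_distrib, ← mul_sum, ← mul_sum, sum_card]
  apply add_le_add
  · have h1 := sum_sqrt V φ
    have hV0 : (0 : ℝ) ≤ V.card := Nat.cast_nonneg _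
    have h2 : √((M : ℝ) * V.card) ≤ √(3 * d * Γ / (2 ^ k) ^ 2 * V.card) :=
      Real.sqrt_le_sqrt (mul_le_mul_of_nonneg_right hM hV0)
    have h3 : √(3 * d * Γ / (2 ^ k) ^ 2 * V.card) = √3 * √d * √(Γ * V.card) / 2 ^ k := by
      have e : 3 * d * Γ / (2 ^ k) ^ 2 * (V.card : ℝ) = (3 * d * (Γ * V.card)) / (2 ^ k) ^ 2 := by
        ring
      rw [e, Real.sqrt_div (by positivity), Real.sqrt_sq hk0.le,
        Real.sqrt_mul (by positivity), Real.sqrt_mul (by norm_num)]
    calc 34 * p * ∑ c' : Fin M, √((V.filter (fun i => φ i = c')).card : ℝ)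
        ≤ 34 * p * (√3 * √d * √(Γ * V.card) / 2 ^ k) := by
          apply mul_le_mul_of_nonneg_left _ (by positivity)
          rw [← h3]
          exact h1.trans h2
      _ = 272 * √3 * √(Γ * V.card) := by
          have hsd : √d ≠ 0 := (Real.sqrt_pos.2 hd0).ne'
          rw [hp]
          field_simp
          ring
      _ ≤ 472 * √(Γ * V.card) := by
          apply mul_le_mul_of_nonneg_right _ (Real.sqrt_nonneg _)
          have : √3 ≤ 1.735 := by
            rw [Real.sqrt_le_left (by norm_num)]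
            norm_num
          linarith
  · rw [hη]
    apply le_of_eq
    ring

/-- the large differences -/
lemma top (hUN : S_UN) (hTOP : S_TOP) (S V : Finset ι)
    (a : ι → ι → Prop) (F : (ι → Bool) → ℝ) (d Γ c : ℝ) (k : ℕ) (hd : (4 : ℝ) ^ k ≤ d)
    (hd' : d < 4 ^ (k + 1))
    (hΓ : 6 ≤ Γ) (M : ℕ) (φ : ι → Fin M) (hM : (M : ℝ) ≤ 3 * d * Γ / (2 ^ k) ^ 2)
    (hP : ∀ c : Fin M,
      Cls (V.filter (fun i => φ i = c)) F (fun i => hs (nb a (V.filter (fun i => φ i = c)) i))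
        (fun i x => D i F x - hs (nb a (V.filter (fun i => φ i = c)) i) x) (2 ^ k)
        (2 * Real.exp (-Γ / 8))) :
    ∑ x, ∑ i ∈ V, ind (sens c F i x ∧ 2 * 2 ^ k ≤ |D i F x|) ≤
      (√(12 * Γ * V.card) + 6 * Real.exp (-Γ / 8) * V.card) * 2 ^ Fintype.card ι := by
  have hk0 : (0 : ℝ) < 2 ^ k := by positivity
  rw [sum_classes V φ]
  set η : ℝ := 2 * Real.exp (-Γ / 8) with hη
  have hone : ∀ c' : Fin M,
      ∑ x, ∑ i ∈ V.filter (fun i => φ i = c'), ind (sens c F i x ∧ 2 * 2 ^ k ≤ |D i F x|) ≤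
      (√((V.filter (fun i => φ i = c')).card : ℝ) +
        3 * η * ((V.filter (fun i => φ i = c')).card : ℝ)) * 2 ^ Fintype.card ι :=
    fun c' => hTOP hUN ι _ F _ _ (2 ^ k) η c (hP c')
  refine (sum_le_sum fun c' _ => hone c').trans ?_
  rw [← sum_mul]
  apply mul_le_mul_of_nonneg_right _ (by positivity)
  rw [sum_add_distrib, ← mul_sum, sum_card]
  apply add_le_add
  · refine (sum_sqrt V φ).trans (Real.sqrt_le_sqrt ?_)
    have hV0 : (0 : ℝ) ≤ V.card := Nat.cast_nonneg _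
    apply mul_le_mul_of_nonneg_right _ hV0
    refine hM.trans ?_
    rw [div_le_iff₀ (by positivity)]
    have e : ((2 : ℝ) ^ k) ^ 2 = 4 ^ k := by
      rw [← pow_mul, mul_comm, pow_mul]
      norm_num
    rw [e]
    rw [pow_succ] at hd'
    nlinarith
  · rw [hη]
    apply le_of_eq
    ring

end DEG

theorem t_DEG : S_DEG := by
  intro hUN hFAC hCLS hTOP hLOV hSB hHO hDEC hPAR ι _ _ S V a F d Γ c K0 hQ hVS hd1 hd2 hΓ hdeg
  have hd : ∀ k ≤ K0, (4 : ℝ) ^ k ≤ d := fun k hk =>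
    (pow_le_pow_right₀ (by norm_num) hk).trans hd1
  have hpar : ∀ k ≤ K0, ∃ (M : ℕ) (φ : ι → Fin M), (M : ℝ) ≤ 3 * d * Γ / (2 ^ k) ^ 2 ∧
      ∀ c : Fin M,
        Cls (V.filter (fun i => φ i = c)) F (fun i => hs (nb a (V.filter (fun i => φ i = c)) i))
          (fun i x => D i F x - hs (nb a (V.filter (fun i => φ i = c)) i) x) (2 ^ k)
          (2 * Real.exp (-Γ / 8)) ∧
        (∀ i ∈ V.filter (fun i => φ i = c),
          ∑ x, ind (|D i F x - hs (nb a (V.filter (fun i => φ i = c)) i) x| < 9 * 2 ^ k / 4) ≤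
          8 * 2 ^ k / √d * 2 ^ Fintype.card ι) ∧
        ((2 : ℝ) ^ k = 1 → ∀ i ∈ V.filter (fun i => φ i = c), ∀ x,
          hs (nb a (V.filter (fun i => φ i = c)) i) x = 0) := by
    intro k hk
    have e : ((2 : ℝ) ^ k) ^ 2 = 4 ^ k := by
      rw [← pow_mul, mul_comm, pow_mul]
      norm_num
    exact hPAR hLOV hSB hHO hDEC ι S V a F d (2 ^ k) Γ hQ hVS (one_le_pow₀ (by norm_num))
      (by rw [e]; exact hd k hk) hΓ hdeg
  have hscale : ∀ k ≤ K0,
      ∑ x, ∑ i ∈ V, ind (sens c F i x ∧ DEG.lk k ≤ |D i F x| ∧ |D i F x| < 2 * 2 ^ k) ≤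
      (472 * √(Γ * V.card) + 100 * Real.exp (-Γ / 8) * V.card) * 2 ^ Fintype.card ι := by
    intro k hk
    obtain ⟨M, φ, hM, hP⟩ := hpar k hk
    exact DEG.scale hUN hFAC hCLS S V a F d Γ c k (hd k hk) hΓ M φ hM hP
  have htop : ∑ x, ∑ i ∈ V, ind (sens c F i x ∧ 2 * 2 ^ K0 ≤ |D i F x|) ≤
      (√(12 * Γ * V.card) + 6 * Real.exp (-Γ / 8) * V.card) * 2 ^ Fintype.card ι := by
    obtain ⟨M, φ, hM, hP⟩ := hpar K0 le_rfl
    exact DEG.top hUN hTOP S V a F d Γ c K0 hd1 hd2 hΓ M φ hM fun c' => (hP c').1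
  calc ∑ x, ∑ i ∈ V, ind (sens c F i x)
      ≤ ∑ x, ∑ i ∈ V, (∑ k ∈ range (K0 + 1),
          ind (sens c F i x ∧ DEG.lk k ≤ |D i F x| ∧ |D i F x| < 2 * 2 ^ k) +
            ind (sens c F i x ∧ 2 * 2 ^ K0 ≤ |D i F x|)) :=
        sum_le_sum fun x _ => sum_le_sum fun i _ => DEG.split_scales c F i x K0
    _ = ∑ k ∈ range (K0 + 1), (∑ x, ∑ i ∈ V,
          ind (sens c F i x ∧ DEG.lk k ≤ |D i F x| ∧ |D i F x| < 2 * 2 ^ k)) +
        ∑ x, ∑ i ∈ V, ind (sens c F i x ∧ 2 * 2 ^ K0 ≤ |D i F x|) := by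
        simp only [sum_add_distrib]
        congr 1
        have h : ∀ x : ι → Bool, ∑ i ∈ V, ∑ k ∈ range (K0 + 1),
            ind (sens c F i x ∧ DEG.lk k ≤ |D i F x| ∧ |D i F x| < 2 * 2 ^ k) =
            ∑ k ∈ range (K0 + 1), ∑ i ∈ V,
              ind (sens c F i x ∧ DEG.lk k ≤ |D i F x| ∧ |D i F x| < 2 * 2 ^ k) :=
          fun x => sum_comm
        rw [sum_congr rfl fun x _ => h x]
        exact sum_comm
    _ ≤ ∑ k ∈ range (K0 + 1),
          ((472 * √(Γ * V.card) + 100 * Real.exp (-Γ / 8) * V.card) * 2 ^ Fintype.card ι) +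
        (√(12 * Γ * V.card) + 6 * Real.exp (-Γ / 8) * V.card) * 2 ^ Fintype.card ι := by
        apply add_le_add _ htop
        apply sum_le_sum
        intro k hk
        exact hscale k (by rw [mem_range] at hk; omega)
    _ = _ := by
        rw [sum_const, card_range, nsmul_eq_mul]
        push_cast
        ring

end Pool.Agent.NH83.QI
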