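import Mathlib

/-!
# Average sensitivity of quadratic threshold functions of graph type (project QI, helper83)

The cube is `ι → Bool`, `ι` finite, `N = 2 ^ |ι|`. For a real function `F` on the cube `D i F` is its difference in the
direction `i`. GOAL: if `D j (D i F) = [a i j]` for a symmetric relation (graph) `a` on a finite set `S` and every vertex of
`S` has a neighbour in `S`, then the total influence over `S` of `x ↦ [c ≤ F x]` is at most `C (log |S|) ^ 2 √|S| N`.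
Then: the level sets of `F` have proportion at most `C (log ν) ^ 2 / √ν`, `ν` = number of disjoint edges.
Application: the second moment of the Jones polynomial (Kauffman bracket) of the `2 ^ n` knot diagrams with a given shadow.

FREE LIBRARY FOR EVERY JOB: Mathlib + this file only (except JPD and FIN).
-/

set_option autoImplicit false
set_option linter.unusedSectionVars false

namespace Pool.Agent.NH83.QI

open Finset

/-- the sign of a bit -/
def sg (b : Bool) : ℝ := if b then 1 else -1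

/-- the sign of a real number, `1` at zero -/
noncomputable def sn (z : ℝ) : ℝ := if 0 ≤ z then 1 else -1

/-- the indicator of a proposition -/
noncomputable def ind (p : Prop) : ℝ := @ite ℝ p (Classical.propDecidable p) 1 0

section
variable {ι : Type} [Fintype ι] [DecidableEq ι]

/-- change one bit -/
def flip (i : ι) (x : ι → Bool) : ι → Bool := Function.update x i (!(x i))

/-- the difference in the direction `i` -/
def D (i : ι) (H : (ι → Bool) → ℝ) (x : ι → Bool) : ℝ :=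
  H (Function.update x i true) - H (Function.update x i false)

/-- the edge `{x, flip i x}` is sensitive: it crosses the threshold `c` -/
def sens (c : ℝ) (F : (ι → Bool) → ℝ) (i : ι) (x : ι → Bool) : Prop := ¬ (c ≤ F x ↔ c ≤ F (flip i x))

/-- `h` does not depend on the coordinates in `U` -/
def Off {β : Type} (U : Finset ι) (h : (ι → Bool) → β) : Prop := ∀ x y, (∀ i, i ∉ U → x i = y i) → h x = h y

/-- `h` only depends on the coordinates in `U` -/
def On {β : Type} (U : Finset ι) (h : (ι → Bool) → β) : Prop := ∀ x y, (∀ i, i ∈ U → x i = y i) → h x = h y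

/-- the neighbours of `i` in `V` -/
noncomputable def nb (a : ι → ι → Prop) (V : Finset ι) (i : ι) : Finset ι :=
  @Finset.filter ι (fun j => j ≠ i ∧ a i j) (Classical.decPred _) V

/-- half of the sum of the signs in `T` -/
noncomputable def hs (T : Finset ι) (x : ι → Bool) : ℝ := (∑ j ∈ T, sg (x j)) / 2

/-! ### small lemmas (proved here) -/

lemma ind_pos {p : Prop} (h : p) : ind p = 1 := by unfold ind; exact if_pos h
lemma ind_neg {p : Prop} (h : ¬ p) : ind p = 0 := by unfold ind; exact if_neg h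
lemma ind_nonneg (p : Prop) : 0 ≤ ind p := by
  by_cases h : p
  · rw [ind_pos h]; norm_num
  · rw [ind_neg h]
lemma ind_le_one (p : Prop) : ind p ≤ 1 := by
  by_cases h : p
  · rw [ind_pos h]
  · rw [ind_neg h]; norm_num
lemma ind_mono {p q : Prop} (h : p → q) : ind p ≤ ind q := by
  by_cases hp : p
  · rw [ind_pos hp, ind_pos (h hp)]
  · rw [ind_neg hp]; exact ind_nonneg q
lemma ind_or {p q r : Prop} (h : p → q ∨ r) : ind p ≤ ind q + ind r := by
  by_cases hp : p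
  · rcases h hp with hq | hr
    · rw [ind_pos hp, ind_pos hq]; linarith [ind_nonneg r]
    · rw [ind_pos hp, ind_pos hr]; linarith [ind_nonneg q]
  · rw [ind_neg hp]; linarith [ind_nonneg r, ind_nonneg q]
lemma ind_and (p q : Prop) : ind (p ∧ q) = ind p * ind q := by
  by_cases hp : p
  · by_cases hq : q
    · rw [ind_pos hp, ind_pos hq, ind_pos ⟨hp, hq⟩]; norm_num
    · rw [ind_neg hq, ind_neg (fun h => hq h.2)]; norm_num
  · rw [ind_neg hp, ind_neg (fun h => hp h.1)]; norm_num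
lemma ind_iff {p q : Prop} (h : p ↔ q) : ind p = ind q := by rw [propext h]
lemma sg_pm (b : Bool) : sg b = 1 ∨ sg b = -1 := by cases b <;> simp [sg]
lemma sg_sq (b : Bool) : sg b * sg b = 1 := by cases b <;> norm_num [sg]
lemma sg_not (b : Bool) : sg (!b) = -sg b := by cases b <;> norm_num [sg]
lemma sn_pm (z : ℝ) : sn z = 1 ∨ sn z = -1 := by unfold sn; split_ifs <;> simp
lemma flip_same (i : ι) (x : ι → Bool) : flip i x i = !(x i) := by simp [flip]
lemma flip_ne {i j : ι} (h : j ≠ i) (x : ι → Bool) : flip i x j = x j := by simp [flip, h]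
lemma flip_flip (i : ι) (x : ι → Bool) : flip i (flip i x) = x := by
  funext j
  by_cases h : j = i
  · subst h; simp [flip]
  · simp [flip, h]
lemma sum_flip (i : ι) (H : (ι → Bool) → ℝ) : ∑ x, H (flip i x) = ∑ x, H x := by
  have e : Function.Involutive (flip i : (ι → Bool) → (ι → Bool)) := flip_flip i
  exact Equiv.sum_comp e.toPerm H
lemma D_sg (i : ι) (H : (ι → Bool) → ℝ) (x : ι → Bool) : H x - H (flip i x) = sg (x i) * D i H x := by
  unfold D flip sg
  by_cases h : x i = true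
  · rw [h]
    have e : Function.update x i true = x := by rw [← h]; exact Function.update_eq_self i x
    rw [e]; simp
  · have h' : x i = false := by simpa using h
    rw [h']
    have e : Function.update x i false = x := by rw [← h']; exact Function.update_eq_self i x
    rw [e]; simp
lemma D_flip_self (i : ι) (H : (ι → Bool) → ℝ) (x : ι → Bool) : D i H (flip i x) = D i H x := by
  unfold D flip
  simp
lemma card_cube : ((Finset.univ : Finset (ι → Bool)).card : ℝ) = 2 ^ Fintype.card ι := by simp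
lemma Off.flip {β : Type} {U : Finset ι} {h : (ι → Bool) → β} (H : Off U h) {i : ι} (hi : i ∈ U) (x : ι → Bool) :
    h (QI.flip i x) = h x := H _ _ fun j hj => flip_ne (fun e => hj (by rw [e]; exact hi)) x

end

/-! ### the jobs -/

/-- JA (Lovász): a colouring with `M` colours in which every vertex of `V` has at most `deg / M` neighbours of its own
colour. PROOF: among all functions `φ : ι → Fin M` restricted to `V` (say `φ` from a finite set: `V → Fin M` extended by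
colour 0, or minimise `ℕ`-valued `mono φ = ∑ i ∈ V, |{j ∈ nb a V i : φ j = φ i}|` by `Nat.find` /
`exists_minimalFor`, `WellFounded.min`) take one with the smallest `mono φ`. Let `i ∈ V`, `c` a colour; recolouring `i`
by `c` changes `mono` by `2 (|{j ∈ nb i : φ j = c}| - |{j ∈ nb i : φ j = φ i}|)` (symmetry of `a`), so this is `≥ 0` for all
`c`; sum over the `M` colours `c`. -/
def S_LOV : Prop := ∀ (ι : Type) [Fintype ι] [DecidableEq ι] (V : Finset ι) (a : ι → ι → Prop) (M : ℕ), 0 < M →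
  (∀ i j, a i j → a j i) → ∃ φ : ι → Fin M, ∀ i ∈ V,
    M * ((nb a V i).filter (fun j => φ j = φ i)).card ≤ (nb a V i).card

/-- JB (small ball estimate for the binomial distribution). PROOF: (1) swap trick: `(x, y) ↦ (T.piecewise y x,
T.piecewise x y)` is an involution of pairs, so `N ∑ x, H x = ∑ x, ∑ y, H (T.piecewise y x)`; for fixed `x` and
`z = T.piecewise y x` one has `h z = h x` (Off) and `hs T z = hs T y = k(y) - t / 2`, `t = |T|`,
`k(y) = |{j ∈ T : y j = true}|`.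
(2) the number of `y` with `k(y) = k` is `C(t, k) 2 ^ (|ι| - t)` (sum over the subsets `A ⊆ T` with `k` elements of the
number of the `y` with `{j ∈ T : y j} = A`, which is a `Fintype.piFinset` of cardinality `2 ^ (|ι| - t)`), and
`C(t, k) ≤ C(t, t/2)`, `C(t, t/2) √(t + 1) ≤ 2 ^ t` (induction by two steps, or from `Nat.four_pow_le_two_mul_self_mul_centralBinom`-type
bounds; square it: `C(t, t/2) ^ 2 (t + 1) ≤ 4 ^ t`, true for all `t`, equality at `t = 0`).
(3) at most `2 r + 1` integers `k` satisfy `|h x - t / 2 + k| < r`. -/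
def S_SB : Prop := ∀ (ι : Type) [Fintype ι] [DecidableEq ι] (T : Finset ι) (h : (ι → Bool) → ℝ) (r : ℝ), 0 ≤ r →
  Off T h → √(T.card + 1) * ∑ x, ind (|h x + hs T x| < r) ≤ (2 * r + 1) * 2 ^ Fintype.card ι

/-- JC (Hoeffding). PROOF: `∑ x, exp (μ ∑ j ∈ T, sg (x j)) = N cosh(μ) ^ |T| ≤ N exp (μ ^ 2 |T| / 2)`
(`Finset.prod_univ_sum`, `Real.cosh_le_exp_half_sq`), Markov with `μ = Γ / (2 τ)`, `|∑| ≥ τ / 2`:
`μ ^ 2 |T| / 2 - μ τ / 2 ≤ Γ / 8 - Γ / 4`; the same for `-μ`. -/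
def S_HO : Prop := ∀ (ι : Type) [Fintype ι] [DecidableEq ι] (T : Finset ι) (τ Γ : ℝ), 0 < τ → 0 < Γ →
  (T.card : ℝ) * Γ ≤ τ ^ 2 → ∑ x, ind (τ / 4 ≤ |hs T x|) ≤ 2 * Real.exp (-Γ / 8) * 2 ^ Fintype.card ι

/-- JD (weighted unate lemma). PROOF: put `s x = 1` if `c ≤ F x` and `-1` otherwise. For fixed `i ∈ U` pair `x` with
`flip i x` (all of `w, b i, σ i` agree there, and `D i F`, too): `∑ x, w x ind (b i x ∧ sens) =
∑ x, w x ind (b i x) s x sg (x i) σ i x + 2 ∑ x, w x ind (b i x ∧ sens ∧ σ i x * D i F x < 0)`, because on a non-sensitive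
pair the second sum cancels, on a sensitive pair `s x sg (x i) = sign (D i F x)` at both points (`D_sg`). Sum over
`i ∈ U`; Cauchy–Schwarz: `∑ x, w x s x Y x ≤ √(∑ w) √(∑ w Y ^ 2)`, `Y x = ∑ i ∈ U, ind (b i x) σ i x sg (x i)`, and
`∑ x, w x Y x ^ 2 = ∑ x, w x ∑ i ∈ U, ind (b i x)` since the cross terms `i ≠ j` change their sign under `flip i`. -/
def S_UN : Prop := ∀ (ι : Type) [Fintype ι] [DecidableEq ι] (U : Finset ι) (w : (ι → Bool) → ℝ)
  (b : ι → (ι → Bool) → Prop) (σ : ι → (ι → Bool) → ℝ) (F : (ι → Bool) → ℝ) (c : ℝ), (∀ x, 0 ≤ w x) → Off U w →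
  (∀ i ∈ U, Off U (b i)) → (∀ i ∈ U, Off U (σ i)) → (∀ i ∈ U, ∀ x, σ i x = 1 ∨ σ i x = -1) →
  ∑ x, w x * ∑ i ∈ U, ind (b i x ∧ sens c F i x) ≤
    √(∑ x, w x) * √(∑ x, w x * ∑ i ∈ U, ind (b i x)) +
      2 * ∑ x, w x * ∑ i ∈ U, ind (b i x ∧ sens c F i x ∧ σ i x * D i F x < 0)

/-- JE (independence). PROOF: `∑ x, ∑ y, w x * e y`; substitute the involution `(x, y) ↦ (U.piecewise y x,
U.piecewise x y)` of the pairs: with `x' = U.piecewise y x` (equal to `x` outside `U` and to `y` on `U`) `w x = w x'` and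
`e y = e x'`, so the sum is `∑ x', ∑ y', w x' * e x'`. -/
def S_FAC : Prop := ∀ (ι : Type) [Fintype ι] [DecidableEq ι] (U : Finset ι) (w e : (ι → Bool) → ℝ), Off U w → On U e →
  2 ^ Fintype.card ι * ∑ x, w x * e x = (∑ x, w x) * ∑ x, e x

/-- the common hypotheses for one class `U`: the difference `D i F` is the sum of `gin i`, which only depends on the
coordinates in `U`, and is rarely large, and `gout i`, which does not depend on them -/
structure Cls {ι : Type} [Fintype ι] [DecidableEq ι] (U : Finset ι) (F : (ι → Bool) → ℝ)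
    (gin gout : ι → (ι → Bool) → ℝ) (τ η : ℝ) : Prop where
  τ0 : 0 < τ
  η0 : 0 ≤ η
  eq : ∀ i ∈ U, ∀ x, D i F x = gin i x + gout i x
  on : ∀ i ∈ U, On U (gin i)
  off : ∀ i ∈ U, Off U (gout i)
  big : ∀ i ∈ U, ∑ x, ind (τ / 4 ≤ |gin i x|) ≤ η * 2 ^ Fintype.card ι

/-- JF (edges with a small difference, one class). Uses JD, JE as hypotheses. `N = 2 ^ |ι|`, `u = |U|` (`u = 0` trivial).
PROOF: `e i x = ind (τ/4 ≤ |gin i x|)`, `∑ x, e i x ≤ η N`, so all terms with `e i x = 1` together are `≤ η u N`. For the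
others `|gout i x| < 9 τ / 4` and `l' ≤ |gout i x|` (hypothesis `h1`): put `b i x := l' ≤ |gout i x| ∧ |gout i x| < 9 τ / 4`
(Off `U`), `σ i x = sn (gout i x)`, `Bi i x := τ / 2 ≤ |gout i x|`, `us x = ∑ i ∈ U, ind (b i x)`,
`bs x = ∑ i ∈ U, ind (Bi i x)`, `A x := bs x < u / 2`. All are Off `U`.
(a) `(u / 2) ∑ x, ind (A x) ≤ ∑ x, ∑ i ∈ U, ind (|gout i x| < τ/2) ≤ p u N`, so `∑ ind A ≤ 2 p N`.
(b) the terms with `A x`: JD with `w = ind A`: `≤ √(2 p N) √(p u N) + 2 ∑ x, ∑ i ∈ U, e i x`, a mismatch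
`b i x ∧ σ i x * D i F x < 0` forces `e i x = 1` by `h2`. So `≤ (√2 p √u + 2 η u) N`.
(c) the terms with `¬ A x` (so `bs x ≥ u / 2 > 0`), `w x = ind (¬ A x) * us x / bs x` (Off `U`, `≤ 2`; `∑ w ≤ 2 p N`,
`∑ w bs = ∑ ind (¬ A) us ≤ min (p, 1) u N`): if `sens ∧ e i x = 0 ∧ b i x` then `|F x - c| ≤ |D i F x| ≤ 5 τ / 2`. So the terms are
`≤ us x * ind (|F x - c| ≤ 5 τ / 2)`. If `|F x - c| ≤ 5 τ / 2`, then for every `i ∈ U` with `Bi i x`: either `e i x = 1`, or
`|D i F x| > τ / 4` and then `sens (c + j τ / 4) F i x` for some integer `j`, `|j| ≤ 11`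
(`j = ⌊4 (F x - c) / τ⌋ + 1` if the flip increases `F`, `j = ⌊4 (F x - c) / τ⌋` if it decreases `F`). Hence
`bs x * ind (|F x - c| ≤ 5 τ / 2) ≤ ∑ i ∈ U, ind (Bi i x) * (e i x + ∑_{|j| ≤ 11} ind (sens (c + j τ / 4) F i x))`, multiply by
`w x / ... = ind (¬ A) us / bs`. First part: `∑ x, w x ∑ i, ind (Bi i x) e i x = ∑ i, (∑ x, w x ind (Bi i x)) (∑ x, e i x) / N ≤
η ∑ x, w x bs x ≤ η u N` (JE: `w * ind (Bi i)` is Off `U`, `e i` is On `U`). Second part: JD 23 times with weight `w`,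
`b = Bi`: `≤ √(2 p N) √(p u N) + 2 ∑ x, w x ∑ i, ind (Bi i x ∧ mismatch)`, a mismatch with `Bi i x` forces `|gin i x| ≥ τ / 2`,
so `e i x = 1`, and the last sum is `≤ η u N` as before.
TOTAL: `N (24 √2 p √u + (1 + 2 + 1 + 46) η u)`. -/
def S_CLS : Prop := S_UN → S_FAC → ∀ (ι : Type) [Fintype ι] [DecidableEq ι] (U : Finset ι) (F : (ι → Bool) → ℝ)
  (gin gout : ι → (ι → Bool) → ℝ) (τ η p l l' c : ℝ), Cls U F gin gout τ η → 0 ≤ p →
  (∀ i ∈ U, ∑ x, ind (|gout i x| < 9 * τ / 4) ≤ p * 2 ^ Fintype.card ι) →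
  (∀ i ∈ U, ∀ x, l ≤ |D i F x| → |gin i x| < τ / 4 → l' ≤ |gout i x|) →
  (∀ i ∈ U, ∀ x, l' ≤ |gout i x| → |gin i x| < τ / 4 → 0 ≤ sn (gout i x) * D i F x) →
  ∑ x, ∑ i ∈ U, ind (sens c F i x ∧ l ≤ |D i F x| ∧ |D i F x| < 2 * τ) ≤
    (34 * p * √U.card + 50 * η * U.card) * 2 ^ Fintype.card ι

/-- JG (edges with a large difference, one class). PROOF: `e i x = ind (τ/4 ≤ |gin i x|)`; the terms with `e i x = 1` are `≤ η u N`.
For the others `|gout i x| ≥ 7 τ / 4 ≥ τ / 2`; JD with `w = 1`, `b i x := τ / 2 ≤ |gout i x|`, `σ i x = sn (gout i x)`: a mismatch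
`b i x ∧ σ i x * D i F x < 0` forces `|gin i x| ≥ τ / 2`, so `e i x = 1`: `≤ √N √(u N) + 2 η u N`. -/
def S_TOP : Prop := S_UN → ∀ (ι : Type) [Fintype ι] [DecidableEq ι] (U : Finset ι) (F : (ι → Bool) → ℝ)
  (gin gout : ι → (ι → Bool) → ℝ) (τ η c : ℝ), Cls U F gin gout τ η →
  ∑ x, ∑ i ∈ U, ind (sens c F i x ∧ 2 * τ ≤ |D i F x|) ≤ (√U.card + 3 * η * U.card) * 2 ^ Fintype.card ι

/-- the second differences of `F` on `S` are given by the graph `a` -/
def Quad {ι : Type} [Fintype ι] [DecidableEq ι] (S : Finset ι) (a : ι → ι → Prop) (F : (ι → Bool) → ℝ) : Prop :=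
  (∀ i j, a i j → a j i) ∧ ∀ i ∈ S, ∀ j ∈ S, i ≠ j → ∀ x, D j (D i F) x = ind (a i j)

/-- JH (decomposition). For `U ⊆ S` and `i ∈ U`: `gin i = hs (nb a U i)`, `gout i = D i F - hs (nb a U i)`. PROOF: `hs (nb a U i)`
only depends on the coordinates in `U` (clear). `h x := D i F x - hs (nb a S i) x` satisfies `h (flip j x) = h x` for all
`j ∈ S`: for `j = i` (`D_flip_self`, `i ∉ nb`), for `j ≠ i`: `D i F x - D i F (flip j x) = sg (x j) * D j (D i F) x =
sg (x j) * ind (a i j)` (`D_sg`) and `hs (nb a S i) x - hs (nb a S i) (flip j x) = ind (a i j) * sg (x j)`. Being invariant under all the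
flips in `S`, `h` is `Off S` (induction over a finite set of coordinates to be changed). Then
`gout i = h + hs (nb a S i \ U)` because `nb a U i = nb a S i ∩ U`, and it is Off `U`. -/
def S_DEC : Prop := ∀ (ι : Type) [Fintype ι] [DecidableEq ι] (S U : Finset ι) (a : ι → ι → Prop) (F : (ι → Bool) → ℝ),
  Quad S a F → U ⊆ S → ∀ i ∈ U, On U (hs (nb a U i)) ∧
    ∃ h : (ι → Bool) → ℝ, Off S h ∧ (∀ x, D i F x - hs (nb a U i) x = h x + hs (nb a S i \ U) x) ∧
      Off U (fun x => D i F x - hs (nb a U i) x)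

/-- JI (one degree class, one scale; the partition). Uses JA, JB, JC, JH and gives the colouring together with all the
properties needed for JF and JG. `d ≥ 1` real, `τ ≥ 1`, `τ ^ 2 ≤ d`, `Γ ≥ 6`, the degrees in `S` of all vertices of `V ⊆ S` are in
`[d, 2 d)`. PROOF: `M = ⌈2 d Γ / τ ^ 2⌉₊`, so `M ≤ 2 d Γ / τ ^ 2 + 1 ≤ 3 d Γ / τ ^ 2`; JA for `V`, `U c = V.filter (φ · = c)`; a
vertex `i ∈ U c` has `|nb a (U c) i| ≤ |nb a V i| / M ≤ 2 d / M ≤ τ ^ 2 / Γ` (`nb a V i ⊆ nb a S i`;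
`nb a (U c) i = (nb a V i).filter (φ · = φ i)`), so `Cls` by JC and JH with `η = 2 exp (-Γ/8)`.
Small ball: `|nb a S i \ U c| ≥ d - τ ^ 2 / Γ ≥ d / 2`, JB with `r = 9 τ / 4`: `≤ (9 τ / 2 + 1) / √(d / 2) ≤ 8 τ / √d`
(as `τ ≥ 1` and `5.5 √2 < 8`). The last property: if `τ = 1` then `|nb a (U c) i| ≤ 1 / Γ < 1`, so it is empty and
`hs = 0`. -/
def S_PAR : Prop := S_LOV → S_SB → S_HO → S_DEC → ∀ (ι : Type) [Fintype ι] [DecidableEq ι] (S V : Finset ι)
  (a : ι → ι → Prop) (F : (ι → Bool) → ℝ) (d τ Γ : ℝ), Quad S a F → V ⊆ S → 1 ≤ τ → τ ^ 2 ≤ d → 6 ≤ Γ →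
  (∀ i ∈ V, d ≤ (nb a S i).card ∧ ((nb a S i).card : ℝ) < 2 * d) →
  ∃ (M : ℕ) (φ : ι → Fin M), (M : ℝ) ≤ 3 * d * Γ / τ ^ 2 ∧ ∀ c : Fin M,
    Cls (V.filter (fun i => φ i = c)) F (fun i => hs (nb a (V.filter (fun i => φ i = c)) i))
      (fun i x => D i F x - hs (nb a (V.filter (fun i => φ i = c)) i) x) τ (2 * Real.exp (-Γ / 8)) ∧
    (∀ i ∈ V.filter (fun i => φ i = c), ∑ x, ind (|D i F x - hs (nb a (V.filter (fun i => φ i = c)) i) x| < 9 * τ / 4) ≤
      8 * τ / √d * 2 ^ Fintype.card ι) ∧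
    (τ = 1 → ∀ i ∈ V.filter (fun i => φ i = c), ∀ x, hs (nb a (V.filter (fun i => φ i = c)) i) x = 0)

/-- JJ (one degree class, all scales). Uses JF, JG, JI (with their hypotheses). `m = |V|`, `4 ^ k ≤ d`, `k ≤ K0` with `4 ^ K0 ≤ d < 4 ^ (K0 + 1)`.
PROOF: for every `k ≤ K0` take the partition of JI with `τ = 2 ^ k` and apply JF to every class: for `k = 0` with
`l = l' = 0` (`hs = 0`, so `D i F = gout i`, and `0 ≤ sn z * z`), for `k ≥ 1` with `l = τ = 2 ^ k`, `l' = 3 τ / 4` (`|D i F| ≥ τ`,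
`|gin| < τ/4` give `|gout| > 3 τ / 4`, and `|gout| ≥ 3 τ / 4`, `|gin| < τ / 4` give the same sign). Sum over the classes `c : Fin M`:
`∑ √|U c| ≤ √(M m)` (Cauchy–Schwarz), `∑ |U c| = m`, so scale `k` contributes
`≤ (34 * (8 τ / √d) * √(3 d Γ m / τ ^ 2) + 50 η m) N ≤ (472 √(Γ m) + 50 η m) N` (`272 √3 ≤ 471.2`).
For the scale `K0` also JG with the same partition: `≤ (√(M m) + 3 η m) N ≤ (√(12 Γ m) + 3 η m) N` since
`M ≤ 3 d Γ / τ ^ 2 ≤ 12 Γ`. Every sensitive edge has `|D i F| < 2`, or `2 ^ k ≤ |D i F| < 2 ^ (k + 1)` for some `1 ≤ k ≤ K0`, or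
`|D i F| ≥ 2 ^ (K0 + 1)`. -/
def S_DEG : Prop := S_UN → S_FAC → S_CLS → S_TOP → S_LOV → S_SB → S_HO → S_DEC → S_PAR → ∀ (ι : Type) [Fintype ι]
  [DecidableEq ι] (S V : Finset ι) (a : ι → ι → Prop) (F : (ι → Bool) → ℝ) (d Γ c : ℝ) (K0 : ℕ), Quad S a F → V ⊆ S →
  (4 : ℝ) ^ K0 ≤ d → d < 4 ^ (K0 + 1) → 6 ≤ Γ → (∀ i ∈ V, d ≤ (nb a S i).card ∧ ((nb a S i).card : ℝ) < 2 * d) →
  ∑ x, ∑ i ∈ V, ind (sens c F i x) ≤ ((K0 + 1) * (472 * √(Γ * V.card) + 100 * Real.exp (-Γ / 8) * V.card) +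
    (√(12 * Γ * V.card) + 6 * Real.exp (-Γ / 8) * V.card)) * 2 ^ Fintype.card ι

/-- JK (all degree classes). PROOF: `V l = {i ∈ S : 2 ^ l ≤ |nb a S i| < 2 ^ (l + 1)}`, `l < K` if `K ≥ 1` (`|nb a S i| < |S| ≤ 2 ^ K`;
if `S` is empty trivial; `|S| ≥ 2` otherwise, so `K ≥ 1`), `d = 2 ^ l`, `K0 = l / 2 ≤ K / 2`, `Γ = 6 (K + 1)`,
`exp (-Γ / 8) ≤ 2 ^ (-(K + 1)) ≤ 1 / (2 |S|)` (`exp 0.75 ≥ 2`). Sum over `l < K`: `∑ √(m_l) ≤ √(K m)`, so
`≤ N [((K + 1) / 2 + 1) 472 + 3.5] √(6 (K + 1)) √(K m) + N (50 (K + 2) + 3) (with m exp (-Γ/8) ≤ 1/2)`, and this is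
`≤ 600 (K + 2) ^ 2 √m N` (very generous; `m ≥ 1`). -/
def S_INF : Prop := ∀ (ι : Type) [Fintype ι] [DecidableEq ι] (S : Finset ι) (a : ι → ι → Prop)
  (F : (ι → Bool) → ℝ) (c : ℝ) (K : ℕ), Quad S a F → (∀ i ∈ S, (nb a S i).Nonempty) → S.card ≤ 2 ^ K →
  ∑ x, ∑ i ∈ S, ind (sens c F i x) ≤ 600 * (K + 2) ^ 2 * √S.card * 2 ^ Fintype.card ι

/-- JK is the implication from JJ and its hypotheses -/
def S_JK : Prop := S_UN → S_FAC → S_CLS → S_TOP → S_LOV → S_SB → S_HO → S_DEC → S_PAR → S_DEG → S_INF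

/-- JL (level sets). `κ ≠ 0` an integer, `F` integral. PROOF: as `Pool.Agent.R811.Cross.level` (file R811/Cross/Comb.lean):
for a pair `u k, w k` with `D (w k) (D (u k) F) ≠ 0` not all four points `x, flip u x, flip w x, flip u (flip w x)` are in the level set, so
`4 L ≤ 3 (bd (u k) + bd (w k))`, `bd i` = number of `x` with `¬ (F x = c ↔ F (flip i x) = c)`. With `F' = F / κ` (real) one has
`Quad S a F'`, `S = image of (u, w)`, `|S| = 2 ν`, every vertex of `S` has its partner as a neighbour, and (`c' = c / κ`, `δ = 1 / |κ|`;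
`F' ∈ δ ℤ`) `{F = c} = {c' ≤ F'} \ {c' + δ ≤ F'}`, so `bd i ≤ ∑ x, (ind (sens c' F' i x) + ind (sens (c' + δ) F' i x))`. JK twice:
`4 ν L ≤ 3 * 2 * 600 (K + 2) ^ 2 √(2 ν) N`, `L √ν ≤ 900 √2 (K + 2) ^ 2 N ≤ 1300 (K + 2) ^ 2 N`. -/
def S_LEV : Prop := S_INF → ∀ (ι : Type) [Fintype ι] [DecidableEq ι] (F : (ι → Bool) → ℤ) (a : ι → ι → Prop) (κ c : ℤ)
  (ν K : ℕ) (u w : Fin ν → ι), κ ≠ 0 → (∀ i j, a i j → a j i) → Function.Injective (Sum.elim u w) →
  (∀ k, a (u k) (w k)) →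
  (∀ i j, i ≠ j → ∀ x, D j (D i (fun y => (F y : ℝ))) x = κ * ind (a i j)) → 2 * ν ≤ 2 ^ K →
  √ν * ((Finset.univ.filter (fun x => F x = c)).card : ℝ) ≤ 1300 * (K + 2) ^ 2 * 2 ^ Fintype.card ι

end Pool.Agent.NH83.QI
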