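import Pool.Agent.NH83.QI.Defs

/-!
# Independence (QI-E)
-/

set_option autoImplicit false
set_option linter.unusedSectionVars false

namespace Pool.Agent.NH83.QI

open Finset

namespace FAC

/-- The exchange of the coordinates in `U`. -/
def sw {ι : Type} [DecidableEq ι] (U : Finset ι) (p : (ι → Bool) × (ι → Bool)) :
    (ι → Bool) × (ι → Bool) :=
  (U.piecewise p.2 p.1, U.piecewise p.1 p.2)

lemma sw_sw {ι : Type} [DecidableEq ι] (U : Finset ι) : Function.Involutive (sw U) := by
  rintro ⟨x, y⟩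
  refine Prod.ext ?_ ?_
  · funext i
    change U.piecewise (U.piecewise x y) (U.piecewise y x) i = x i
    by_cases h : i ∈ U
    · rw [Finset.piecewise_eq_of_mem _ _ _ h, Finset.piecewise_eq_of_mem _ _ _ h]
    · rw [Finset.piecewise_eq_of_notMem _ _ _ h, Finset.piecewise_eq_of_notMem _ _ _ h]
  · funext i
    change U.piecewise (U.piecewise y x) (U.piecewise x y) i = y i
    by_cases h : i ∈ U
    · rw [Finset.piecewise_eq_of_mem _ _ _ h, Finset.piecewise_eq_of_mem _ _ _ h]
    · rw [Finset.piecewise_eq_of_notMem _ _ _ h, Finset.piecewise_eq_of_notMem _ _ _ h]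

end FAC

theorem t_FAC : S_FAC := by
  intro ι _ _ U w e hw he
  have h1 : ∑ p : (ι → Bool) × (ι → Bool), w p.1 * e p.2 =
      ∑ p : (ι → Bool) × (ι → Bool), w (FAC.sw U p).1 * e (FAC.sw U p).2 :=
    (Equiv.sum_comp (FAC.sw_sw U).toPerm (fun p : (ι → Bool) × (ι → Bool) => w p.1 * e p.2)).symm
  have h2 : ∀ p : (ι → Bool) × (ι → Bool), w (FAC.sw U p).1 * e (FAC.sw U p).2 = w p.1 * e p.1 := by
    intro p
    have h3 : w (FAC.sw U p).1 = w p.1 := by
      refine hw _ _ fun i hi => ?_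
      exact Finset.piecewise_eq_of_notMem _ _ _ hi
    have h4 : e (FAC.sw U p).2 = e p.1 := by
      refine he _ _ fun i hi => ?_
      exact Finset.piecewise_eq_of_mem _ _ _ hi
    rw [h3, h4]
  rw [Finset.sum_congr rfl fun p _ => h2 p, Fintype.sum_prod_type, Fintype.sum_prod_type] at h1
  have h5 : ∑ x : ι → Bool, ∑ y : ι → Bool, w (x, y).1 * e (x, y).2 = (∑ x, w x) * ∑ x, e x := by
    rw [Finset.sum_mul_sum]
  have h6 : ∑ x : ι → Bool, ∑ _y : ι → Bool, w x * e x =
      2 ^ Fintype.card ι * ∑ x, w x * e x := by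
    rw [Finset.mul_sum]
    refine Finset.sum_congr rfl fun x _ => ?_
    rw [Finset.sum_const, nsmul_eq_mul, card_cube]
  rw [← h5, h1, ← h6]

end Pool.Agent.NH83.QI
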