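import Pool.Agent.NH83.QI.Defs

set_option autoImplicit false
set_option linter.unusedSectionVars false

namespace Pool.Agent.NH83.QI

open Finset

namespace HO

variable {ι : Type} [Fintype ι] [DecidableEq ι]

lemma sum_exp (T : Finset ι) (μ : ℝ) :
    ∑ x : ι → Bool, Real.exp (μ * ∑ j ∈ T, sg (x j)) ≤
      Real.exp (μ ^ 2 * T.card / 2) * 2 ^ Fintype.card ι := by
  have h1 : ∀ x : ι → Bool, Real.exp (μ * ∑ j ∈ T, sg (x j)) =
      ∏ j, (if j ∈ T then Real.exp (μ * sg (x j)) else 1) := by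
    intro x
    rw [Finset.mul_sum, Real.exp_sum, Finset.prod_ite_mem, Finset.univ_inter]
  have h2 : ∑ x : ι → Bool, ∏ j, (if j ∈ T then Real.exp (μ * sg (x j)) else 1) =
      ∏ j : ι, ∑ b : Bool, (if j ∈ T then Real.exp (μ * sg b) else 1) := by
    rw [Finset.prod_univ_sum, Fintype.piFinset_univ]
  rw [Finset.sum_congr rfl fun x _ => h1 x, h2]
  have h3 : ∀ j : ι, ∑ b : Bool, (if j ∈ T then Real.exp (μ * sg b) else 1) =
      (if j ∈ T then Real.cosh μ else 1) * 2 := by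
    intro j
    by_cases hj : j ∈ T
    · simp only [if_pos hj, Fintype.sum_bool, sg, Real.cosh_eq]
      simp
    · simp only [if_neg hj, Fintype.sum_bool]
      norm_num
  rw [Finset.prod_congr rfl fun j _ => h3 j, Finset.prod_mul_distrib, Finset.prod_ite_mem,
    Finset.univ_inter, Finset.prod_const, Finset.prod_const, Finset.card_univ]
  refine mul_le_mul_of_nonneg_right ?_ (by positivity)
  calc Real.cosh μ ^ T.card ≤ Real.exp (μ ^ 2 / 2) ^ T.card :=
        pow_le_pow_left₀ (Real.cosh_pos μ).le (Real.cosh_le_exp_half_sq μ) _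
    _ = Real.exp (μ ^ 2 * T.card / 2) := by
        rw [← Real.exp_nat_mul]
        congr 1
        ring

end HO

open HO

theorem t_HO : S_HO := by
  intro ι _ _ T τ Γ hτ hΓ hT
  obtain ⟨μ, hμ⟩ : ∃ μ : ℝ, μ = Γ / (2 * τ) := ⟨_, rfl⟩
  have hμ0 : 0 < μ := by rw [hμ]; positivity
  have hμτ : μ * τ = Γ / 2 := by
    rw [hμ]
    field_simp
  have hμT : μ ^ 2 * T.card / 2 ≤ Γ / 8 := by
    have h1 : μ ^ 2 * (T.card * Γ) ≤ μ ^ 2 * τ ^ 2 := mul_le_mul_of_nonneg_left hT (by positivity)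
    have h2 : μ ^ 2 * τ ^ 2 = Γ ^ 2 / 4 := by
      rw [← mul_pow, hμτ]
      ring
    rw [h2] at h1
    have h3 : (μ ^ 2 * T.card) * Γ ≤ (Γ / 4) * Γ := by linarith
    have h4 := le_of_mul_le_mul_right h3 hΓ
    linarith
  have hpt : ∀ x : ι → Bool, ind (τ / 4 ≤ |hs T x|) ≤
      Real.exp (μ * ∑ j ∈ T, sg (x j)) * Real.exp (-(Γ / 4)) +
      Real.exp ((-μ) * ∑ j ∈ T, sg (x j)) * Real.exp (-(Γ / 4)) := by
    intro x
    by_cases h : τ / 4 ≤ |hs T x|
    · rw [ind_pos h]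
      rw [← Real.exp_add, ← Real.exp_add]
      unfold hs at h
      rcases le_abs.1 h with h1 | h1
      · have h2 : 0 ≤ μ * ∑ j ∈ T, sg (x j) + -(Γ / 4) := by
          have : μ * (τ / 4) ≤ μ * ((∑ j ∈ T, sg (x j)) / 2) := mul_le_mul_of_nonneg_left h1 hμ0.le
          linarith
        have h3 := Real.one_le_exp h2
        have h4 := Real.exp_pos (-μ * ∑ j ∈ T, sg (x j) + -(Γ / 4))
        linarith
      · have h2 : 0 ≤ -μ * ∑ j ∈ T, sg (x j) + -(Γ / 4) := by
          have : μ * (τ / 4) ≤ μ * (-((∑ j ∈ T, sg (x j)) / 2)) :=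
            mul_le_mul_of_nonneg_left h1 hμ0.le
          linarith
        have h3 := Real.one_le_exp h2
        have h4 := Real.exp_pos (μ * ∑ j ∈ T, sg (x j) + -(Γ / 4))
        linarith
    · rw [ind_neg h]
      positivity
  have h1 := sum_exp T μ
  have h2 := sum_exp T (-μ)
  rw [neg_sq] at h2
  have h5 : Real.exp (μ ^ 2 * T.card / 2) ≤ Real.exp (Γ / 8) := Real.exp_le_exp.2 hμT
  have h6 : Real.exp (Γ / 8) * Real.exp (-(Γ / 4)) = Real.exp (-Γ / 8) := by
    rw [← Real.exp_add]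
    congr 1
    ring
  have hN : (0 : ℝ) < 2 ^ Fintype.card ι := by positivity
  calc ∑ x, ind (τ / 4 ≤ |hs T x|) ≤ ∑ x : ι → Bool,
        (Real.exp (μ * ∑ j ∈ T, sg (x j)) * Real.exp (-(Γ / 4)) +
          Real.exp ((-μ) * ∑ j ∈ T, sg (x j)) * Real.exp (-(Γ / 4))) :=
        Finset.sum_le_sum fun x _ => hpt x
    _ = (∑ x : ι → Bool, Real.exp (μ * ∑ j ∈ T, sg (x j))) * Real.exp (-(Γ / 4)) +
        (∑ x : ι → Bool, Real.exp ((-μ) * ∑ j ∈ T, sg (x j))) * Real.exp (-(Γ / 4)) := by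
        rw [Finset.sum_add_distrib, Finset.sum_mul, Finset.sum_mul]
    _ ≤ (Real.exp (Γ / 8) * 2 ^ Fintype.card ι) * Real.exp (-(Γ / 4)) +
        (Real.exp (Γ / 8) * 2 ^ Fintype.card ι) * Real.exp (-(Γ / 4)) := by
        have e1 := h1.trans (mul_le_mul_of_nonneg_right h5 hN.le)
        have e2 := h2.trans (mul_le_mul_of_nonneg_right h5 hN.le)
        exact add_le_add (mul_le_mul_of_nonneg_right e1 (Real.exp_pos _).le)
          (mul_le_mul_of_nonneg_right e2 (Real.exp_pos _).le)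
    _ = 2 * (Real.exp (Γ / 8) * Real.exp (-(Γ / 4))) * 2 ^ Fintype.card ι := by ring
    _ = 2 * Real.exp (-Γ / 8) * 2 ^ Fintype.card ι := by rw [h6]

end Pool.Agent.NH83.QI
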