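import Pool.Agent.NH83.QI.Defs

/-!
# QI-K: all degree classes
-/

set_option autoImplicit false

namespace Pool.Agent.NH83.QI

open Finset

namespace INF

/-- the numerical estimate for the exponential -/
lemma expb (K : ℕ) (m : ℝ) (hm0 : 0 ≤ m) (hm : m ≤ 2 ^ K) :
    Real.exp (-(6 * ((K : ℝ) + 1)) / 8) * m ≤ 1 / 2 := by
  have h1 : (2 : ℝ) ≤ Real.exp (3 / 4) := by
    have h := Real.add_one_le_exp (3 / 8 : ℝ)
    have h2 : Real.exp (3 / 4) = Real.exp (3 / 8) * Real.exp (3 / 8) := by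
      rw [← Real.exp_add]; norm_num
    have h3 := Real.quadratic_le_exp_of_nonneg (show (0 : ℝ) ≤ 3 / 4 by norm_num)
    nlinarith [Real.exp_pos (3 / 8 : ℝ), Real.exp_one_gt_d9]
  have h2 : (2 : ℝ) ^ (K + 1) ≤ Real.exp (3 / 4 * ((K : ℝ) + 1)) := by
    have : Real.exp (3 / 4 * ((K : ℝ) + 1)) = Real.exp (3 / 4) ^ (K + 1) := by
      rw [← Real.exp_nat_mul]; push_cast; ring_nf
    rw [this]
    exact pow_le_pow_left₀ (by norm_num) h1 _
  have h3 : -(6 * ((K : ℝ) + 1)) / 8 = -(3 / 4 * ((K : ℝ) + 1)) := by ring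
  rw [h3, Real.exp_neg]
  have h4 : (0 : ℝ) < 2 ^ (K + 1) := by positivity
  calc (Real.exp (3 / 4 * ((K : ℝ) + 1)))⁻¹ * m ≤ ((2 : ℝ) ^ (K + 1))⁻¹ * 2 ^ K := by
        apply mul_le_mul _ hm hm0 (by positivity)
        exact inv_anti₀ h4 h2
    _ = 1 / 2 := by
        rw [pow_succ]; field_simp

end INF

theorem t_INF : S_JK := by
  intro hUN hFAC hCLS hTOP hLOV hSB hHO hDEC hPAR hDEG ι _ _ S a F c K hQ hne hK
  rcases S.eq_empty_or_nonempty with hS | hS
  · subst hS; simp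
  have hnbS : ∀ i, nb a S i ⊆ S.erase i := by
    intro i j hj
    have hj' := (@Finset.mem_filter _ _ (Classical.decPred _) _ _).mp hj
    exact Finset.mem_erase.mpr ⟨hj'.2.1, hj'.1⟩
  have hnb1 : ∀ i ∈ S, 1 ≤ (nb a S i).card := fun i hi => Finset.card_pos.mpr (hne i hi)
  have hnb2 : ∀ i ∈ S, (nb a S i).card < 2 ^ K := by
    intro i hi
    have h1 := Finset.card_le_card (hnbS i)
    have h2 := Finset.card_erase_lt_of_mem hi
    omega
  set V : ℕ → Finset ι := fun l => S.filter (fun i => Nat.log 2 (nb a S i).card = l) with hV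
  have hmaps : ∀ i ∈ S, Nat.log 2 (nb a S i).card ∈ range K := by
    intro i hi
    rw [Finset.mem_range]
    exact Nat.log_lt_of_lt_pow (by have := hnb1 i hi; omega) (hnb2 i hi)
  set N : ℝ := 2 ^ Fintype.card ι with hN
  have hN0 : 0 < N := by positivity
  set Γ : ℝ := 6 * ((K : ℝ) + 1) with hΓ
  set e : ℝ := Real.exp (-Γ / 8) with he
  have he0 : 0 < e := Real.exp_pos _
  have hK0 : (0 : ℝ) ≤ K := Nat.cast_nonneg _
  -- one class
  have hone : ∀ l ∈ range K, ∑ x, ∑ i ∈ V l, ind (sens c F i x) ≤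
      ((((K : ℝ) + 1) / 2 * 472 * √Γ + √(12 * Γ)) * √((V l).card : ℝ) +
        (((K : ℝ) + 1) / 2 * 100 * e + 6 * e) * (V l).card) * N := by
    intro l hl
    rw [Finset.mem_range] at hl
    have h1 : (4 : ℝ) ^ (l / 2) ≤ 2 ^ l := by
      have : (4 : ℝ) = 2 ^ 2 := by norm_num
      rw [this, ← pow_mul]
      exact pow_le_pow_right₀ (by norm_num) (by omega)
    have h2 : (2 : ℝ) ^ l < 4 ^ (l / 2 + 1) := by
      have : (4 : ℝ) = 2 ^ 2 := by norm_num
      rw [this, ← pow_mul]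
      exact pow_lt_pow_right₀ (by norm_num) (by omega)
    have h3 : ∀ i ∈ V l, (2 : ℝ) ^ l ≤ (nb a S i).card ∧ ((nb a S i).card : ℝ) < 2 * 2 ^ l := by
      intro i hi
      rw [hV] at hi
      simp only [Finset.mem_filter] at hi
      obtain ⟨hiS, hil⟩ := hi
      have p0 : (nb a S i).card ≠ 0 := by have := hnb1 i hiS; omega
      have p1 := Nat.pow_log_le_self 2 p0
      have p2 := Nat.lt_pow_succ_log_self (b := 2) (by norm_num) (nb a S i).card
      rw [hil] at p1 p2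
      constructor
      · exact_mod_cast p1
      · have : (2 : ℝ) * 2 ^ l = ((2 ^ (l + 1) : ℕ) : ℝ) := by push_cast; ring
        rw [this]
        exact_mod_cast p2
    have h4 := hDEG hUN hFAC hCLS hTOP hLOV hSB hHO hDEC hPAR ι S (V l) a F (2 ^ l) Γ c (l / 2) hQ
      (Finset.filter_subset _ _) h1 h2 (by rw [hΓ]; linarith) h3
    refine le_trans h4 ?_
    apply mul_le_mul_of_nonneg_right _ hN0.le
    have hΓ0 : 0 ≤ Γ := by rw [hΓ]; linarith
    rw [Real.sqrt_mul hΓ0, Real.sqrt_mul (show (0 : ℝ) ≤ 12 * Γ by linarith)]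
    have h5 : ((l / 2 : ℕ) : ℝ) + 1 ≤ ((K : ℝ) + 1) / 2 := by
      have h6 : 2 * (l / 2) + 1 ≤ K := by omega
      have h7 : (2 : ℝ) * ((l / 2 : ℕ) : ℝ) + 1 ≤ K := by exact_mod_cast h6
      linarith
    have h8 : 0 ≤ 472 * (√Γ * √((V l).card : ℝ)) + 100 * e * ((V l).card : ℝ) := by positivity
    have h9 := mul_le_mul_of_nonneg_right h5 h8
    rw [← he]
    linarith
  -- the sum over the classes
  have hsum : ∑ x, ∑ i ∈ S, ind (sens c F i x) =
      ∑ l ∈ range K, ∑ x, ∑ i ∈ V l, ind (sens c F i x) := by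
    rw [Finset.sum_comm (s := range K)]
    apply Finset.sum_congr rfl
    intro x _
    rw [hV]
    exact (Finset.sum_fiberwise_of_maps_to hmaps _).symm
  have hcard : ∑ l ∈ range K, ((V l).card : ℝ) = S.card := by
    rw [← Nat.cast_sum, hV]
    congr 1
    exact (Finset.card_eq_sum_card_fiberwise hmaps).symm
  have hCS : ∑ l ∈ range K, √((V l).card : ℝ) ≤ √(K : ℝ) * √(S.card : ℝ) := by
    have h := Real.sum_sqrt_mul_sqrt_le (range K) (f := fun _ => (1 : ℝ))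
      (g := fun l => ((V l).card : ℝ)) (fun _ => zero_le_one) (fun _ => Nat.cast_nonneg _)
    simp only [Real.sqrt_one, one_mul, hcard, Finset.sum_const, Finset.card_range, nsmul_eq_mul,
      mul_one] at h
    exact h
  have hm1 : (1 : ℝ) ≤ √(S.card : ℝ) := by
    rw [Real.one_le_sqrt]
    exact_mod_cast hS.card_pos
  have hem : e * (S.card : ℝ) ≤ 1 / 2 := by
    rw [he, hΓ]
    exact INF.expb K _ (Nat.cast_nonneg _) (by exact_mod_cast hK)
  have hΓK : √Γ * √(K : ℝ) ≤ 2.45 * ((K : ℝ) + 1) := by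
    rw [← Real.sqrt_mul (by rw [hΓ]; linarith)]
    apply Real.sqrt_le_iff.mpr
    constructor
    · linarith
    · rw [hΓ]; nlinarith
  have hΓK2 : √(12 * Γ) * √(K : ℝ) ≤ 8.5 * ((K : ℝ) + 1) := by
    rw [← Real.sqrt_mul (by rw [hΓ]; linarith)]
    apply Real.sqrt_le_iff.mpr
    constructor
    · linarith
    · rw [hΓ]; nlinarith
  calc ∑ x, ∑ i ∈ S, ind (sens c F i x)
      = ∑ l ∈ range K, ∑ x, ∑ i ∈ V l, ind (sens c F i x) := hsum
    _ ≤ ∑ l ∈ range K, ((((K : ℝ) + 1) / 2 * 472 * √Γ + √(12 * Γ)) * √((V l).card : ℝ) +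
        (((K : ℝ) + 1) / 2 * 100 * e + 6 * e) * (V l).card) * N := Finset.sum_le_sum hone
    _ = ((((K : ℝ) + 1) / 2 * 472 * √Γ + √(12 * Γ)) * ∑ l ∈ range K, √((V l).card : ℝ) +
        (((K : ℝ) + 1) / 2 * 100 * e + 6 * e) * S.card) * N := by
        rw [← Finset.sum_mul, Finset.sum_add_distrib, ← Finset.mul_sum, ← Finset.mul_sum, hcard]
    _ ≤ ((((K : ℝ) + 1) / 2 * 472 * √Γ + √(12 * Γ)) * (√(K : ℝ) * √(S.card : ℝ)) +
        (((K : ℝ) + 1) / 2 * 100 * e + 6 * e) * S.card) * N := by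
        apply mul_le_mul_of_nonneg_right _ hN0.le
        have := mul_le_mul_of_nonneg_left hCS
          (show 0 ≤ ((K : ℝ) + 1) / 2 * 472 * √Γ + √(12 * Γ) by positivity)
        linarith
    _ ≤ (600 * (K + 2) ^ 2 * √(S.card : ℝ)) * N := by
        apply mul_le_mul_of_nonneg_right _ hN0.le
        have e1 : (((K : ℝ) + 1) / 2 * 472 * √Γ + √(12 * Γ)) * (√(K : ℝ) * √(S.card : ℝ)) =
            (((K : ℝ) + 1) * 236 * (√Γ * √(K : ℝ)) + √(12 * Γ) * √(K : ℝ)) * √(S.card : ℝ) := by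
          ring
        have e2 : (((K : ℝ) + 1) / 2 * 100 * e + 6 * e) * S.card =
            (50 * ((K : ℝ) + 1) + 6) * (e * S.card) := by ring
        rw [e1, e2]
        have f1 : (50 * ((K : ℝ) + 1) + 6) * (e * S.card) ≤ (50 * ((K : ℝ) + 1) + 6) * (1 / 2) :=
          mul_le_mul_of_nonneg_left hem (by linarith)
        have f2 : ((K : ℝ) + 1) * 236 * (√Γ * √(K : ℝ)) ≤
            ((K : ℝ) + 1) * 236 * (2.45 * ((K : ℝ) + 1)) :=
          mul_le_mul_of_nonneg_left hΓK (by linarith)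
        have f3 : (((K : ℝ) + 1) * 236 * (√Γ * √(K : ℝ)) + √(12 * Γ) * √(K : ℝ)) * √(S.card : ℝ) ≤
            (((K : ℝ) + 1) * 236 * (2.45 * ((K : ℝ) + 1)) + 8.5 * ((K : ℝ) + 1)) *
              √(S.card : ℝ) :=
          mul_le_mul_of_nonneg_right (by linarith) (Real.sqrt_nonneg _)
        have f4 : (50 * ((K : ℝ) + 1) + 6) * (1 / 2) ≤
            ((50 * ((K : ℝ) + 1) + 6) * (1 / 2)) * √(S.card : ℝ) :=
          le_mul_of_one_le_right (by linarith) hm1
        have f5 : ((((K : ℝ) + 1) * 236 * (2.45 * ((K : ℝ) + 1)) + 8.5 * ((K : ℝ) + 1)) +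
            (50 * ((K : ℝ) + 1) + 6) * (1 / 2)) * √(S.card : ℝ) ≤
            (600 * (K + 2) ^ 2) * √(S.card : ℝ) :=
          mul_le_mul_of_nonneg_right (by nlinarith) (Real.sqrt_nonneg _)
        linarith
    _ = 600 * (K + 2) ^ 2 * √(S.card : ℝ) * 2 ^ Fintype.card ι := by rw [hN]

end Pool.Agent.NH83.QI
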