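import Pool.Agent.NH83.QI.Defs

/-!
# QI-L: level sets
-/

set_option autoImplicit false
set_option linter.unusedSectionVars false

namespace Pool.Agent.NH83.QI

open Finset

namespace LEV

variable {ι : Type} [Fintype ι] [DecidableEq ι]

theorem flip_comm (i j : ι) (x : ι → Bool) : flip i (flip j x) = flip j (flip i x) := by
  by_cases hij : i = j
  · subst hij; rfl
  funext k
  by_cases hk : k = i
  · subst hk
    rw [flip_same, flip_ne hij, flip_ne hij, flip_same]
  · by_cases hk' : k = j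
    · subst hk'
      rw [flip_ne hk, flip_same, flip_same, flip_ne hk]
    · rw [flip_ne hk, flip_ne hk', flip_ne hk', flip_ne hk]

/-- the number of the points at which the bit `i` matters for the level set -/
noncomputable def bd (i : ι) (F : (ι → Bool) → ℤ) (c : ℤ) : ℝ :=
  ∑ x, ind (¬ (F x = c ↔ F (flip i x) = c))

theorem pair_bd {u w : ι} (F : (ι → Bool) → ℤ) (c : ℤ)
    (h : ∀ x, ¬ (F x = c ∧ F (flip u x) = c ∧ F (flip w x) = c ∧ F (flip u (flip w x)) = c)) :
    4 * ((Finset.univ.filter (fun x => F x = c)).card : ℝ) ≤ 3 * (bd u F c + bd w F c) := by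
  classical
  set l : (ι → Bool) → ℝ := fun x => ind (F x = c) with hl
  have e0 : ((Finset.univ.filter (fun x => F x = c)).card : ℝ) = ∑ x, l x := by
    rw [Finset.card_filter]
    push_cast
    refine Finset.sum_congr rfl fun x _ => ?_
    rw [hl]
    by_cases hx : F x = c
    · rw [if_pos hx]; exact (ind_pos hx).symm
    · rw [if_neg hx]; exact (ind_neg hx).symm
  have e1 : ∑ x, l (flip u x) = ∑ x, l x := sum_flip u l
  have e2 : ∑ x, l (flip w x) = ∑ x, l x := sum_flip w l
  have e3 : ∑ x, l (flip u (flip w x)) = ∑ x, l x := by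
    rw [sum_flip w (fun x => l (flip u x))]; exact e1
  set b : ι → (ι → Bool) → ℝ := fun i x => ind (¬ (F x = c ↔ F (flip i x) = c)) with hb
  have f1 : ∑ x, b u (flip w x) = ∑ x, b u x := sum_flip w (b u)
  have f2 : ∑ x, b w (flip u x) = ∑ x, b w x := sum_flip u (b w)
  have key : ∑ x, 4 * (l x + l (flip u x) + l (flip w x) + l (flip u (flip w x))) ≤
      ∑ x, 6 * (b u x + b u (flip w x) + b w x + b w (flip u x)) := by
    refine Finset.sum_le_sum fun x _ => ?_
    have hx := h x
    simp only [hl, hb]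
    rw [flip_comm w u x]
    generalize hA1 : (F x = c) = A1 at hx ⊢
    generalize hA2 : (F (flip u x) = c) = A2 at hx ⊢
    generalize hA3 : (F (flip w x) = c) = A3 at hx ⊢
    generalize hA4 : (F (flip u (flip w x)) = c) = A4 at hx ⊢
    clear hA1 hA2 hA3 hA4
    by_cases a1 : A1 <;> by_cases a2 : A2 <;> by_cases a3 : A3 <;>
      by_cases a4 : A4 <;> simp only [a1, a2, a3, a4, true_and, and_true, not_true, not_false_eq_true,
        iff_true, iff_false, ind, if_true, if_false] at hx ⊢ <;>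
      norm_num
  rw [← Finset.mul_sum, ← Finset.mul_sum, Finset.sum_add_distrib, Finset.sum_add_distrib,
    Finset.sum_add_distrib, Finset.sum_add_distrib, Finset.sum_add_distrib, Finset.sum_add_distrib,
    e1, e2, e3, f1, f2] at key
  rw [e0]
  show 4 * ∑ x, l x ≤ 3 * (∑ x, b u x + ∑ x, b w x)
  linarith

theorem sg_ne (b : Bool) : sg b ≠ 0 := by
  rcases sg_pm b with h | h <;> rw [h] <;> norm_num

theorem DD_flip {u w : ι} (F : (ι → Bool) → ℝ) (c : ℝ) (x : ι → Bool)
    (h : D u (D w F) x ≠ 0) :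
    ¬ (F x = c ∧ F (flip u x) = c ∧ F (flip w x) = c ∧ F (flip u (flip w x)) = c) := by
  rintro ⟨h1, h2, h3, h4⟩
  have e1 : D w F x = 0 := by
    have := D_sg w F x
    rw [h1, h3, sub_self] at this
    exact (mul_eq_zero.mp this.symm).resolve_left (sg_ne _)
  have e2 : D w F (flip u x) = 0 := by
    have := D_sg w F (flip u x)
    rw [h2, flip_comm w u x, h4, sub_self] at this
    exact (mul_eq_zero.mp this.symm).resolve_left (sg_ne _)
  apply h
  have := D_sg u (D w F) x
  rw [e1, e2, sub_self] at this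
  exact (mul_eq_zero.mp this.symm).resolve_left (sg_ne _)

theorem thr (κ c g : ℤ) (hκ : κ ≠ 0) :
    ((c : ℝ) / κ ≤ (g : ℝ) / κ ↔ 0 ≤ κ.sign * (g - c)) ∧
    ((c : ℝ) / κ + 1 / |(κ : ℝ)| ≤ (g : ℝ) / κ ↔ 1 ≤ κ.sign * (g - c)) := by
  rcases lt_or_gt_of_ne hκ with h | h
  · have hr : (κ : ℝ) < 0 := by exact_mod_cast h
    rw [Int.sign_eq_neg_one_of_neg h, abs_of_neg hr]
    constructor
    · rw [div_le_div_right_of_neg hr]
      constructor
      · intro h1
        have : g ≤ c := by exact_mod_cast h1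
        omega
      · intro h1
        have : g ≤ c := by omega
        exact_mod_cast this
    · have e : (c : ℝ) / κ + 1 / -(κ : ℝ) = ((c - 1 : ℤ) : ℝ) / κ := by
        push_cast; field_simp; ring
      rw [e, div_le_div_right_of_neg hr]
      constructor
      · intro h1
        have : g ≤ c - 1 := by exact_mod_cast h1
        omega
      · intro h1
        have : g ≤ c - 1 := by omega
        exact_mod_cast this
  · have hr : (0 : ℝ) < κ := by exact_mod_cast h
    rw [Int.sign_eq_one_of_pos h, abs_of_pos hr]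
    constructor
    · rw [div_le_div_iff_of_pos_right hr]
      constructor
      · intro h1
        have : c ≤ g := by exact_mod_cast h1
        omega
      · intro h1
        have : c ≤ g := by omega
        exact_mod_cast this
    · have e : (c : ℝ) / κ + 1 / (κ : ℝ) = ((c + 1 : ℤ) : ℝ) / κ := by
        push_cast; field_simp
      rw [e, div_le_div_iff_of_pos_right hr]
      constructor
      · intro h1
        have : c + 1 ≤ g := by exact_mod_cast h1
        omega
      · intro h1
        have : c + 1 ≤ g := by omega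
        exact_mod_cast this

theorem bd_le (i : ι) (F : (ι → Bool) → ℤ) (κ c : ℤ) (hκ : κ ≠ 0) :
    bd i F c ≤ ∑ x, ind (sens ((c : ℝ) / κ) (fun y => (F y : ℝ) / κ) i x) +
      ∑ x, ind (sens ((c : ℝ) / κ + 1 / |(κ : ℝ)|) (fun y => (F y : ℝ) / κ) i x) := by
  unfold bd
  rw [← Finset.sum_add_distrib]
  refine Finset.sum_le_sum fun x _ => ?_
  apply ind_or
  intro h
  unfold sens
  simp only [(thr κ c _ hκ).1, (thr κ c _ hκ).2]
  have hs : κ.sign = 1 ∨ κ.sign = -1 := by
    rcases lt_or_gt_of_ne hκ with h | h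
    · right; exact Int.sign_eq_neg_one_of_neg h
    · left; exact Int.sign_eq_one_of_pos h
  by_contra hcon
  push Not at hcon
  obtain ⟨h1, h2⟩ := hcon
  apply h
  rcases hs with hs | hs <;> rw [hs] at h1 h2 <;> constructor <;> intro h3 <;> omega

theorem D_div (i : ι) (H : (ι → Bool) → ℝ) (κ : ℝ) :
    D i (fun y => H y / κ) = fun y => D i H y / κ := by
  funext x
  unfold D
  ring

end LEV

open LEV in
theorem t_LEV : S_LEV := by
  intro hINF ι _ _ F a κ c ν K u w hκ ha hinj hau hDD hK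
  classical
  set L : ℝ := ((Finset.univ.filter (fun x => F x = c)).card : ℝ) with hL
  have hL0 : 0 ≤ L := Nat.cast_nonneg _
  set S : Finset ι := Finset.univ.image (Sum.elim u w) with hS
  have hκr : (κ : ℝ) ≠ 0 := by exact_mod_cast hκ
  have hcard : S.card = 2 * ν := by
    rw [hS, Finset.card_image_of_injective _ hinj, Finset.card_univ, Fintype.card_sum,
      Fintype.card_fin]
    ring
  have huw : ∀ k, u k ≠ w k := fun k h => by
    have := hinj (a₁ := Sum.inl k) (a₂ := Sum.inr k) h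
    cases this
  have huS : ∀ k, u k ∈ S := fun k => by
    rw [hS]; exact Finset.mem_image.mpr ⟨Sum.inl k, Finset.mem_univ _, rfl⟩
  have hwS : ∀ k, w k ∈ S := fun k => by
    rw [hS]; exact Finset.mem_image.mpr ⟨Sum.inr k, Finset.mem_univ _, rfl⟩
  set F' : (ι → Bool) → ℝ := fun y => (F y : ℝ) / κ with hF'
  have hDD' : ∀ i j, i ≠ j → ∀ x, D j (D i F') x = ind (a i j) := by
    intro i j hij x
    rw [hF', D_div, D_div]
    show D j (D i fun y => (F y : ℝ)) x / κ = _
    rw [hDD i j hij x]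
    field_simp
  have hsum : ∑ i ∈ S, bd i F c = ∑ k, (bd (u k) F c + bd (w k) F c) := by
    rw [hS, Finset.sum_image (fun a _ b _ hab => hinj hab), Fintype.sum_sum_type,
      Finset.sum_add_distrib]
    rfl
  have h1 : 4 * (ν * L) ≤ 3 * ∑ i ∈ S, bd i F c := by
    rw [hsum, Finset.mul_sum]
    have : ∀ k : Fin ν, 4 * L ≤ 3 * (bd (u k) F c + bd (w k) F c) := by
      intro k
      refine pair_bd F c (fun x => ?_)
      have hne : D (u k) (D (w k) F') x ≠ 0 := by
        rw [hDD' (w k) (u k) (huw k).symm, ind_pos (ha _ _ (hau k))]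
        norm_num
      have h := DD_flip F' ((c : ℝ) / κ) x hne
      rintro ⟨g1, g2, g3, g4⟩
      exact h ⟨by simp only [hF', g1], by simp only [hF', g2], by simp only [hF', g3],
        by simp only [hF', g4]⟩
    calc 4 * (ν * L) = ∑ _k : Fin ν, 4 * L := by
          rw [Finset.sum_const, Finset.card_univ, Fintype.card_fin, nsmul_eq_mul]; ring
      _ ≤ _ := Finset.sum_le_sum fun k _ => this k
  have hQ : Quad S a F' := ⟨ha, fun i _ j _ hij x => hDD' i j hij x⟩
  have hne : ∀ i ∈ S, (nb a S i).Nonempty := by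
    intro i hi
    rw [hS, Finset.mem_image] at hi
    obtain ⟨k, _, hk⟩ := hi
    rcases k with k | k
    · refine ⟨w k, (@Finset.mem_filter _ _ (Classical.decPred _) _ _).mpr ⟨hwS k, ?_, ?_⟩⟩
      · rw [← hk]; exact (huw k).symm
      · rw [← hk]; exact hau k
    · refine ⟨u k, (@Finset.mem_filter _ _ (Classical.decPred _) _ _).mpr ⟨huS k, ?_, ?_⟩⟩
      · rw [← hk]; exact huw k
      · rw [← hk]; exact ha _ _ (hau k)
  have hK' : S.card ≤ 2 ^ K := by rw [hcard]; exact hK
  have i1 := hINF ι S a F' ((c : ℝ) / κ) K hQ hne hK'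
  have i2 := hINF ι S a F' ((c : ℝ) / κ + 1 / |(κ : ℝ)|) K hQ hne hK'
  rw [Finset.sum_comm] at i1 i2
  have h2 : ∑ i ∈ S, bd i F c ≤ 1200 * (K + 2) ^ 2 * √(S.card : ℝ) * 2 ^ Fintype.card ι := by
    have h3 : ∑ i ∈ S, bd i F c ≤ ∑ i ∈ S, (∑ x, ind (sens ((c : ℝ) / κ) F' i x) +
        ∑ x, ind (sens ((c : ℝ) / κ + 1 / |(κ : ℝ)|) F' i x)) :=
      Finset.sum_le_sum fun i _ => bd_le i F κ c hκ
    rw [Finset.sum_add_distrib] at h3
    linarith
  rcases Nat.eq_zero_or_pos ν with h0 | h0
  · rw [h0]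
    simp only [Nat.cast_zero, Real.sqrt_zero, zero_mul]
    positivity
  · have hν : (0 : ℝ) < ν := by exact_mod_cast h0
    have hc : √(S.card : ℝ) = √2 * √(ν : ℝ) := by
      rw [hcard]; push_cast
      rw [Real.sqrt_mul (by norm_num)]
    rw [hc] at h2
    have hs2 : √(2 : ℝ) ≤ 1.4143 := by
      apply Real.sqrt_le_iff.mpr
      constructor <;> norm_num
    have hsν : 0 < √(ν : ℝ) := Real.sqrt_pos.mpr hν
    have hνν : (ν : ℝ) = √(ν : ℝ) * √(ν : ℝ) := (Real.mul_self_sqrt hν.le).symm
    set N : ℝ := 2 ^ Fintype.card ι with hN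
    have hN0 : 0 < N := by positivity
    set Q : ℝ := ((K : ℝ) + 2) ^ 2 with hQ'
    have hQ0 : 0 < Q := by positivity
    have h5 : 4 * (√(ν : ℝ) * (√(ν : ℝ) * L)) ≤ 4 * (√(ν : ℝ) * (900 * √2 * Q * N)) := by
      have e1 : 4 * (√(ν : ℝ) * (√(ν : ℝ) * L)) = 4 * (ν * L) := by
        rw [← mul_assoc (√(ν : ℝ)), ← hνν]
      rw [e1]
      calc 4 * (ν * L) ≤ 3 * ∑ i ∈ S, bd i F c := h1
        _ ≤ 3 * (1200 * Q * (√2 * √(ν : ℝ)) * N) := by linarith
        _ = 4 * (√(ν : ℝ) * (900 * √2 * Q * N)) := by ring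
    have h6 : √(ν : ℝ) * L ≤ 900 * √2 * Q * N :=
      le_of_mul_le_mul_left (le_of_mul_le_mul_left h5 (by norm_num)) hsν
    have h7 : 900 * √2 * Q * N ≤ 1300 * Q * N := by
      apply mul_le_mul_of_nonneg_right _ hN0.le
      apply mul_le_mul_of_nonneg_right _ hQ0.le
      linarith
    exact h6.trans h7

end Pool.Agent.NH83.QI
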