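import Pool.Agent.NH83.QI.Defs

/-!
# JA (Lovász): a colouring of a graph with few monochromatic edges (project QI, job QI-A)
-/

set_option autoImplicit false

namespace Pool.Agent.NH83.QI

open Finset

namespace LOV

lemma aux {ι : Type} [Fintype ι] [DecidableEq ι] (V : Finset ι) (M : ℕ) (w : ι → ι → ℕ)
    (hw : ∀ i j, w i j = w j i) (h0 : ∀ i, w i i = 0) (hM : 0 < M) :
    ∃ φ : ι → Fin M, ∀ i ∈ V, M * (∑ k ∈ V, if φ k = φ i then w i k else 0) ≤ ∑ k ∈ V, w i k := by
  have : NeZero M := ⟨hM.ne'⟩
  obtain ⟨φ, -, hφ⟩ := Finset.exists_min_image (univ : Finset (ι → Fin M))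
    (fun φ => ∑ j ∈ V, ∑ k ∈ V, if φ k = φ j then w j k else 0) ⟨fun _ => 0, mem_univ _⟩
  refine ⟨φ, fun i hi => ?_⟩
  have key : ∀ ψ : ι → Fin M, ∑ j ∈ V, ∑ k ∈ V, (if ψ k = ψ j then w j k else 0) =
      ∑ j ∈ V.erase i, ∑ k ∈ V.erase i, (if ψ k = ψ j then w j k else 0) +
        2 * ∑ k ∈ V.erase i, (if ψ k = ψ i then w i k else 0) := by
    intro ψ
    have e1 : ∀ j ∈ V.erase i, ∑ k ∈ V, (if ψ k = ψ j then w j k else 0) =
        (if ψ j = ψ i then w i j else 0) + ∑ k ∈ V.erase i, (if ψ k = ψ j then w j k else 0) := by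
      intro j _
      rw [← Finset.add_sum_erase V _ hi]
      congr 1
      by_cases h : ψ i = ψ j
      · rw [if_pos h, if_pos h.symm, hw]
      · rw [if_neg h, if_neg (fun e => h e.symm)]
    rw [← Finset.add_sum_erase V _ hi, Finset.sum_congr rfl e1, Finset.sum_add_distrib,
      ← Finset.add_sum_erase V (fun k => if ψ k = ψ i then w i k else 0) hi]
    simp only [h0, if_true]
    ring
  have hmin : ∀ c : Fin M, ∑ k ∈ V.erase i, (if φ k = φ i then w i k else 0) ≤
      ∑ k ∈ V.erase i, (if φ k = c then w i k else 0) := by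
    intro c
    have h1 := hφ (Function.update φ i c) (mem_univ _)
    rw [key φ, key (Function.update φ i c)] at h1
    have e2 : ∀ k ∈ V.erase i, Function.update φ i c k = φ k := by
      intro k hk
      exact Function.update_of_ne (ne_of_mem_erase hk) _ _
    have e3 : ∑ j ∈ V.erase i, ∑ k ∈ V.erase i,
        (if Function.update φ i c k = Function.update φ i c j then w j k else 0) =
        ∑ j ∈ V.erase i, ∑ k ∈ V.erase i, (if φ k = φ j then w j k else 0) := by
      refine Finset.sum_congr rfl fun j hj => Finset.sum_congr rfl fun k hk => ?_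
      rw [e2 j hj, e2 k hk]
    have e4 : ∑ k ∈ V.erase i,
        (if Function.update φ i c k = Function.update φ i c i then w i k else 0) =
        ∑ k ∈ V.erase i, (if φ k = c then w i k else 0) := by
      refine Finset.sum_congr rfl fun k hk => ?_
      rw [e2 k hk, Function.update_self]
    rw [e3, e4] at h1
    omega
  have hV : ∀ c : Fin M, ∑ k ∈ V, (if φ k = c then w i k else 0) =
      ∑ k ∈ V.erase i, (if φ k = c then w i k else 0) := by
    intro c
    rw [← Finset.add_sum_erase V _ hi]
    simp [h0]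
  calc M * (∑ k ∈ V, if φ k = φ i then w i k else 0)
      = ∑ _c : Fin M, ∑ k ∈ V, (if φ k = φ i then w i k else 0) := by simp
    _ ≤ ∑ c : Fin M, ∑ k ∈ V, (if φ k = c then w i k else 0) := by
        refine Finset.sum_le_sum fun c _ => ?_
        rw [hV, hV]
        exact hmin c
    _ = ∑ k ∈ V, w i k := by
        rw [Finset.sum_comm]
        refine Finset.sum_congr rfl fun k _ => ?_
        simp

end LOV

theorem t_LOV : S_LOV := by
  intro ι _ _ V a M hM ha
  classical
  obtain ⟨φ, hφ⟩ := LOV.aux V M (fun i j => if j ≠ i ∧ a i j then 1 else 0)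
    (fun i j => by
      by_cases h : i = j
      · subst h; rfl
      · by_cases h2 : a i j
        · simp [h, h2, ha i j h2, Ne.symm h]
        · have h3 : ¬ a j i := fun e => h2 (ha j i e)
          simp [h2, h3])
    (fun i => by simp) hM
  refine ⟨φ, fun i hi => ?_⟩
  have h := hφ i hi
  have e1 : ((nb a V i).filter (fun j => φ j = φ i)).card =
      ∑ k ∈ V, if φ k = φ i then (if k ≠ i ∧ a i k then 1 else 0) else 0 := by
    rw [Finset.card_filter]
    unfold nb
    rw [Finset.sum_filter]
    refine Finset.sum_congr rfl fun k _ => ?_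
    by_cases h2 : k ≠ i ∧ a i k
    · rw [if_pos h2]
      exact if_congr Iff.rfl (if_pos h2).symm rfl
    · rw [if_neg h2]
      by_cases h1 : φ k = φ i
      · rw [if_pos h1, if_neg h2]
      · rw [if_neg h1]
  have e2 : (nb a V i).card = ∑ k ∈ V, if k ≠ i ∧ a i k then 1 else 0 := by
    unfold nb
    rw [Finset.card_filter]
    refine Finset.sum_congr rfl fun k _ => ?_
    by_cases h2 : k ≠ i ∧ a i k
    · rw [if_pos h2, if_pos h2]
    · rw [if_neg h2, if_neg h2]
  rw [e1, e2]
  exact h

end Pool.Agent.NH83.QI
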