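import Pool.Agent.NH83.QI.Defs

set_option autoImplicit false
set_option linter.unusedSectionVars false

/-!
# Project QI: the partition of a degree class (QI-I, S_PAR)
-/

namespace Pool.Agent.NH83.QI

open Finset

namespace PAR

section
variable {ι : Type} [Fintype ι] [DecidableEq ι]

lemma mem_nb (a : ι → ι → Prop) (V : Finset ι) (i j : ι) : j ∈ nb a V i ↔ j ∈ V ∧ j ≠ i ∧ a i j :=
  @Finset.mem_filter ι (fun j => j ≠ i ∧ a i j) (Classical.decPred _) V j

lemma nb_mono (a : ι → ι → Prop) {V S : Finset ι} (h : V ⊆ S) (i : ι) : nb a V i ⊆ nb a S i := by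
  intro j hj
  rw [mem_nb] at hj ⊢
  exact ⟨h hj.1, hj.2⟩

lemma nb_inter (a : ι → ι → Prop) {U S : Finset ι} (h : U ⊆ S) (i : ι) : nb a S i ∩ U = nb a U i := by
  ext j
  rw [Finset.mem_inter, mem_nb, mem_nb]
  constructor
  · rintro ⟨⟨_, h2⟩, h3⟩
    exact ⟨h3, h2⟩
  · rintro ⟨h1, h2⟩
    exact ⟨⟨h h1, h2⟩, h1⟩

lemma nb_class (a : ι → ι → Prop) (V : Finset ι) {M : ℕ} (φ : ι → Fin M) (c : Fin M) (i : ι) (hi : φ i = c) :
    nb a (V.filter (fun i => φ i = c)) i = (nb a V i).filter (fun j => φ j = φ i) := by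
  ext j
  rw [Finset.mem_filter, mem_nb, mem_nb, Finset.mem_filter, hi]
  tauto

lemma hs_empty (x : ι → Bool) : hs (∅ : Finset ι) x = 0 := by
  unfold hs
  simp

/-- the numerical estimate for the small ball -/
lemma small (d τ t N s : ℝ) (hτ : 1 ≤ τ) (hd : 1 ≤ d) (ht : d / 2 ≤ t) (hN : 0 ≤ N)
    (h : √(t + 1) * s ≤ (2 * (9 * τ / 4) + 1) * N) (hs : 0 ≤ s) : s ≤ 8 * τ / √d * N := by
  have hd0 : 0 < √d := Real.sqrt_pos.2 (by linarith)
  have h1 : √d ≤ √2 * √(t + 1) := by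
    rw [← Real.sqrt_mul (by norm_num)]
    exact Real.sqrt_le_sqrt (by linarith)
  have h2 : √2 ≤ 16 / 11 := by
    rw [Real.sqrt_le_left (by norm_num)]
    norm_num
  have hs2 : (0 : ℝ) ≤ √2 := Real.sqrt_nonneg _
  rw [div_mul_eq_mul_div, le_div_iff₀ hd0]
  calc s * √d ≤ s * (√2 * √(t + 1)) := mul_le_mul_of_nonneg_left h1 hs
    _ = √2 * (√(t + 1) * s) := by ring
    _ ≤ √2 * ((2 * (9 * τ / 4) + 1) * N) := mul_le_mul_of_nonneg_left h hs2
    _ ≤ 16 / 11 * ((2 * (9 * τ / 4) + 1) * N) := by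
        apply mul_le_mul_of_nonneg_right h2
        apply mul_nonneg _ hN
        linarith
    _ ≤ 16 / 11 * ((11 / 2 * τ) * N) := by
        apply mul_le_mul_of_nonneg_left _ (by norm_num)
        apply mul_le_mul_of_nonneg_right _ hN
        linarith
    _ = 8 * τ * N := by ring

end

end PAR

open PAR in
/-- QI-I: the partition of a degree class -/
theorem t_PAR : S_PAR := by
  intro hLOV hSB hHO hDEC ι _ _ S V a F d τ Γ hQ hV hτ1 hτd hΓ hdeg
  have hτ0 : 0 < τ := by linarith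
  have hτ2 : 0 < τ ^ 2 := by positivity
  have hτ21 : 1 ≤ τ ^ 2 := by nlinarith
  have hd1 : 1 ≤ d := le_trans hτ21 hτd
  have hd0 : 0 < d := by linarith
  have hΓ0 : 0 < Γ := by linarith
  have hbase : 6 ≤ d * Γ / τ ^ 2 := by
    rw [le_div_iff₀ hτ2]
    nlinarith
  obtain ⟨M, hM⟩ : ∃ M : ℕ, M = ⌈2 * d * Γ / τ ^ 2⌉₊ := ⟨_, rfl⟩
  have hM1 : 2 * d * Γ / τ ^ 2 ≤ M := by rw [hM]; exact Nat.le_ceil _
  have hM2 : (M : ℝ) ≤ 2 * d * Γ / τ ^ 2 + 1 := by
    rw [hM]
    exact (Nat.ceil_lt_add_one (by positivity)).le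
  have e1 : 2 * d * Γ / τ ^ 2 = 2 * (d * Γ / τ ^ 2) := by ring
  have e2 : 3 * d * Γ / τ ^ 2 = 3 * (d * Γ / τ ^ 2) := by ring
  have hM0 : 0 < M := by
    have : (0 : ℝ) < M := by linarith
    exact_mod_cast this
  obtain ⟨φ, hφ⟩ := hLOV ι V a M hM0 hQ.1
  refine ⟨M, φ, by linarith, fun c => ?_⟩
  set U : Finset ι := V.filter (fun i => φ i = c) with hU
  have hUV : U ⊆ V := Finset.filter_subset _ _
  have hUS : U ⊆ S := hUV.trans hV
  -- the degree in the class
  have hcard : ∀ i ∈ U, ((nb a U i).card : ℝ) * Γ ≤ τ ^ 2 := by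
    intro i hi
    have hi' := Finset.mem_filter.1 hi
    have h1 := hφ i hi'.1
    rw [← nb_class a V φ c i hi'.2] at h1
    have h2 : (nb a V i).card ≤ (nb a S i).card := Finset.card_le_card (nb_mono a hV i)
    have h3 : (M : ℝ) * (nb a U i).card ≤ (nb a S i).card := by exact_mod_cast h1.trans h2
    have h4 := (hdeg i hi'.1).2
    have h5 : (2 * d * Γ / τ ^ 2) * (nb a U i).card ≤ 2 * d := by
      calc (2 * d * Γ / τ ^ 2) * (nb a U i).card ≤ M * (nb a U i).card :=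
            mul_le_mul_of_nonneg_right hM1 (Nat.cast_nonneg _)
        _ ≤ _ := h3
        _ ≤ _ := h4.le
    rw [div_mul_eq_mul_div, div_le_iff₀ hτ2] at h5
    have h6 : 2 * d * (((nb a U i).card : ℝ) * Γ) ≤ 2 * d * τ ^ 2 := by linarith
    exact le_of_mul_le_mul_left h6 (by linarith)
  refine ⟨⟨hτ0, by positivity, fun i _ x => by ring, fun i hi => (hDEC ι S U a F hQ hUS i hi).1,
    fun i hi => (hDEC ι S U a F hQ hUS i hi).2.choose_spec.2.2, fun i hi => ?_⟩, fun i hi => ?_,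
    fun h1 i hi x => ?_⟩
  · exact hHO ι (nb a U i) τ Γ hτ0 hΓ0 (hcard i hi)
  · obtain ⟨_, h, hoff, heq, _⟩ := hDEC ι S U a F hQ hUS i hi
    have hi' := Finset.mem_filter.1 hi
    have hT : Off (nb a S i \ U) h := by
      intro x y hxy
      apply hoff
      intro j hj
      apply hxy
      intro hj'
      exact hj ((mem_nb a S i j).1 (Finset.mem_sdiff.1 hj').1).1
    have hsb := hSB ι (nb a S i \ U) h (9 * τ / 4) (by positivity) hT
    have hsum : ∑ x, ind (|D i F x - hs (nb a U i) x| < 9 * τ / 4) =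
        ∑ x, ind (|h x + hs (nb a S i \ U) x| < 9 * τ / 4) := by
      refine Finset.sum_congr rfl fun x _ => ?_
      rw [heq x]
    rw [hsum]
    refine small d τ ((nb a S i \ U).card : ℝ) _ _ hτ1 hd1 ?_ (by positivity) hsb
      (Finset.sum_nonneg fun x _ => ind_nonneg _)
    have h1 : (nb a S i \ U).card + (nb a S i ∩ U).card = (nb a S i).card :=
      Finset.card_sdiff_add_card_inter _ _
    rw [nb_inter a hUS i] at h1
    have h2 : ((nb a S i \ U).card : ℝ) + (nb a U i).card = (nb a S i).card := by exact_mod_cast h1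
    have h3 := hcard i hi
    have h4 := (hdeg i hi'.1).1
    have h5 : ((nb a U i).card : ℝ) * 6 ≤ d := by
      calc ((nb a U i).card : ℝ) * 6 ≤ (nb a U i).card * Γ :=
            mul_le_mul_of_nonneg_left hΓ (Nat.cast_nonneg _)
        _ ≤ τ ^ 2 := h3
        _ ≤ d := hτd
    linarith
  · have h3 := hcard i hi
    rw [h1] at h3
    have h4 : (nb a U i).card = 0 := by
      by_contra hne
      have h5 : (1 : ℝ) ≤ (nb a U i).card := by exact_mod_cast Nat.one_le_iff_ne_zero.2 hne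
      nlinarith
    rw [Finset.card_eq_zero.1 h4, hs_empty]

end Pool.Agent.NH83.QI
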