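import Pool.Agent.NH83.QI.Defs

/-!
# Project QI: small ball estimate for the binomial distribution
-/

set_option autoImplicit false
set_option linter.unusedSectionVars false

namespace Pool.Agent.NH83.QI

open Finset

namespace SB

lemma cb (m : ℕ) : (Nat.centralBinom m : ℝ) ^ 2 * (2 * m + 1) ≤ 16 ^ m := by
  induction m with
  | zero => simp
  | succ m ih =>
    have h1 : ((m : ℝ) + 1) * Nat.centralBinom (m + 1) = 2 * (2 * m + 1) * Nat.centralBinom m := by
      have := Nat.succ_mul_centralBinom_succ m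
      exact_mod_cast this
    have h2 : ((m : ℝ) + 1) ^ 2 * ((Nat.centralBinom (m + 1) : ℝ) ^ 2 * (2 * m + 3)) =
        4 * ((2 * m + 1) * (2 * m + 3)) * ((Nat.centralBinom m : ℝ) ^ 2 * (2 * m + 1)) := by
      calc _ = (((m : ℝ) + 1) * Nat.centralBinom (m + 1)) ^ 2 * (2 * m + 3) := by ring
        _ = _ := by rw [h1]; ring
    have hm : (0 : ℝ) ≤ m := Nat.cast_nonneg m
    have h3 : ((m : ℝ) + 1) ^ 2 * ((Nat.centralBinom (m + 1) : ℝ) ^ 2 * (2 * m + 3)) ≤
        ((m : ℝ) + 1) ^ 2 * 16 ^ (m + 1) := by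
      rw [h2]
      calc 4 * ((2 * (m : ℝ) + 1) * (2 * m + 3)) * ((Nat.centralBinom m : ℝ) ^ 2 * (2 * m + 1))
          ≤ 4 * ((2 * (m : ℝ) + 1) * (2 * m + 3)) * 16 ^ m :=
            mul_le_mul_of_nonneg_left ih (by positivity)
        _ ≤ (16 * ((m : ℝ) + 1) ^ 2) * 16 ^ m := by
            refine mul_le_mul_of_nonneg_right ?_ (by positivity)
            nlinarith
        _ = _ := by rw [pow_succ]; ring
    have h4 := le_of_mul_le_mul_left h3 (by positivity)
    push_cast
    calc _ = (Nat.centralBinom (m + 1) : ℝ) ^ 2 * (2 * m + 3) := by ring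
      _ ≤ _ := h4

lemma ch (t k : ℕ) : (t.choose k : ℝ) ^ 2 * (t + 1) ≤ 4 ^ t := by
  have h16 : ∀ m : ℕ, (16 : ℝ) ^ m = 4 ^ (2 * m) := by
    intro m
    rw [pow_mul]
    norm_num
  rcases Nat.even_or_odd' t with ⟨m, rfl | rfl⟩
  · have h1 : ((2 * m).choose k : ℝ) ≤ Nat.centralBinom m := by
      exact_mod_cast Nat.choose_le_centralBinom k m
    have h2 := cb m
    rw [h16] at h2
    refine le_trans ?_ h2
    push_cast
    refine mul_le_mul_of_nonneg_right ?_ (by positivity)
    exact pow_le_pow_left₀ (Nat.cast_nonneg _) h1 2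
  · have h0 : (2 * m + 1) / 2 = m := by omega
    have h1 : ((2 * m + 1).choose k : ℝ) ≤ (2 * m + 1).choose m := by
      have := Nat.choose_le_middle k (2 * m + 1)
      rw [h0] at this
      exact_mod_cast this
    have h3 : (Nat.centralBinom (m + 1) : ℝ) = 2 * ((2 * m + 1).choose m : ℝ) := by
      have h4 : Nat.centralBinom (m + 1) = 2 * (2 * m + 1).choose m := by
        rw [Nat.centralBinom, show 2 * (m + 1) = (2 * m + 1) + 1 by ring, Nat.choose_succ_succ,
          Nat.succ_eq_add_one, Nat.choose_symm_half]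
        ring
      exact_mod_cast h4
    have h2 := cb (m + 1)
    rw [h16, h3] at h2
    have hm : (0 : ℝ) ≤ m := Nat.cast_nonneg m
    have h5 : ((2 * m + 1).choose k : ℝ) ^ 2 ≤ ((2 * m + 1).choose m : ℝ) ^ 2 :=
      pow_le_pow_left₀ (Nat.cast_nonneg _) h1 2
    push_cast at h2 ⊢
    have h6 : (4 : ℝ) ^ (2 * (m + 1)) = 4 * 4 ^ (2 * m + 1) := by
      rw [← pow_succ']
      congr 1
    rw [h6] at h2
    have h7 : (0 : ℝ) ≤ ((2 * m + 1).choose m : ℝ) ^ 2 := sq_nonneg _
    nlinarith

lemma ch' (t k : ℕ) : √((t : ℝ) + 1) * (t.choose k : ℝ) ≤ 2 ^ t := by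
  have h1 := ch t k
  have h2 : (√((t : ℝ) + 1) * (t.choose k : ℝ)) ^ 2 ≤ (2 ^ t) ^ 2 := by
    rw [mul_pow, Real.sq_sqrt (by positivity)]
    calc ((t : ℝ) + 1) * (t.choose k : ℝ) ^ 2 = (t.choose k : ℝ) ^ 2 * (t + 1) := by ring
      _ ≤ 4 ^ t := h1
      _ = (2 ^ t) ^ 2 := by
        rw [← pow_mul, mul_comm, pow_mul]
        norm_num
  exact le_of_sq_le_sq h2 (by positivity)

lemma ints (M : ℕ) (a r : ℝ) (hr : 0 ≤ r) :
    (((range M).filter (fun k : ℕ => |a + k| < r)).card : ℝ) ≤ 2 * r + 1 := by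
  classical
  rcases ((range M).filter (fun k : ℕ => |a + k| < r)).eq_empty_or_nonempty with h | h
  · rw [h, card_empty, Nat.cast_zero]
    linarith
  · set s := (range M).filter (fun k : ℕ => |a + k| < r) with hs
    have h1 := s.min'_mem h
    have h2 := s.max'_mem h
    have h3 : s ⊆ Finset.Icc (s.min' h) (s.max' h) := fun k hk =>
      mem_Icc.2 ⟨s.min'_le k hk, s.le_max' k hk⟩
    have h4 := card_le_card h3
    rw [Nat.card_Icc] at h4
    have h5 : s.min' h ≤ s.max' h := s.min'_le _ h2
    have h6 := (abs_lt.1 (mem_filter.1 h1).2).1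
    have h7 := (abs_lt.1 (mem_filter.1 h2).2).2
    have h8 : (s.card : ℝ) ≤ (s.max' h : ℝ) + 1 - (s.min' h : ℝ) := by
      have : ((s.max' h + 1 - s.min' h : ℕ) : ℝ) = (s.max' h : ℝ) + 1 - (s.min' h : ℝ) := by
        rw [Nat.cast_sub (by omega)]
        push_cast
        ring
      rw [← this]
      exact_mod_cast h4
    linarith

section
variable {ι : Type} [Fintype ι] [DecidableEq ι]

/-- the set of the elements of `T` with bit one -/
def tr (T : Finset ι) (y : ι → Bool) : Finset ι := T.filter (fun j => y j = true)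

lemma fib (T A : Finset ι) (hA : A ⊆ T) :
    (univ.filter (fun y : ι → Bool => tr T y = A)).card = 2 ^ (Fintype.card ι - T.card) := by
  have h1 : univ.filter (fun y : ι → Bool => tr T y = A) =
      Fintype.piFinset (fun i => if i ∈ T then {decide (i ∈ A)} else (univ : Finset Bool)) := by
    ext y
    rw [mem_filter, Fintype.mem_piFinset]
    constructor
    · rintro ⟨-, h⟩ i
      by_cases hi : i ∈ T
      · rw [if_pos hi, mem_singleton, ← h]
        simp [tr, hi]
      · rw [if_neg hi]
        exact mem_univ _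
    · intro h
      refine ⟨mem_univ _, ?_⟩
      ext i
      rw [tr, mem_filter]
      have h2 := h i
      constructor
      · rintro ⟨hi, hy⟩
        rw [if_pos hi, mem_singleton, hy] at h2
        exact of_decide_eq_true h2.symm
      · intro hi
        have hT := hA hi
        rw [if_pos hT, mem_singleton] at h2
        exact ⟨hT, by rw [h2]; exact decide_eq_true hi⟩
  rw [h1, Fintype.card_piFinset]
  have h2 : ∀ i, (if i ∈ T then ({decide (i ∈ A)} : Finset Bool) else univ).card =
      if i ∈ T then 1 else 2 := by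
    intro i
    split_ifs <;> simp
  rw [prod_congr rfl fun i _ => h2 i, prod_ite, prod_const_one, one_mul, prod_const]
  congr 1
  rw [← card_compl]
  congr 1
  ext i
  simp

lemma cnt (T : Finset ι) (k : ℕ) :
    (univ.filter (fun y : ι → Bool => (tr T y).card = k)).card =
      T.card.choose k * 2 ^ (Fintype.card ι - T.card) := by
  have h1 : ∀ y ∈ univ.filter (fun y : ι → Bool => (tr T y).card = k), tr T y ∈ powersetCard k T := by
    intro y hy
    rw [mem_powersetCard]
    exact ⟨filter_subset _ _, (mem_filter.1 hy).2⟩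
  rw [card_eq_sum_card_fiberwise h1]
  have h2 : ∀ A ∈ powersetCard k T,
      ((univ.filter (fun y : ι → Bool => (tr T y).card = k)).filter (fun y => tr T y = A)).card =
        2 ^ (Fintype.card ι - T.card) := by
    intro A hA
    rw [mem_powersetCard] at hA
    rw [← fib T A hA.1, filter_filter]
    congr 1
    ext y
    simp only [mem_filter, mem_univ, true_and]
    constructor
    · exact fun h => h.2
    · intro h
      exact ⟨by rw [h]; exact hA.2, h⟩
  rw [sum_congr rfl h2, sum_const, card_powersetCard, smul_eq_mul]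

lemma hs_eq (T : Finset ι) (y : ι → Bool) :
    hs T y = ((tr T y).card : ℝ) - (T.card : ℝ) / 2 := by
  have h1 : ∀ j, sg (y j) = 2 * (if y j = true then (1 : ℝ) else 0) - 1 := by
    intro j
    unfold sg
    cases y j <;> norm_num
  unfold hs tr
  rw [sum_congr rfl fun j _ => h1 j, sum_sub_distrib, ← mul_sum, sum_boole, sum_const, nsmul_eq_mul]
  ring

lemma ball (T : Finset ι) (a r : ℝ) (hr : 0 ≤ r) :
    √(T.card + 1) * ∑ y : ι → Bool, ind (|a + hs T y| < r) ≤ (2 * r + 1) * 2 ^ Fintype.card ι := by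
  classical
  set t := T.card with ht
  have htn : t ≤ Fintype.card ι := Finset.card_le_univ T
  have hmap : ∀ y ∈ (univ : Finset (ι → Bool)), (tr T y).card ∈ range (t + 1) := by
    intro y _
    rw [mem_range]
    exact Nat.lt_succ_iff.2 (card_filter_le _ _)
  have h1 : ∑ y : ι → Bool, ind (|a + hs T y| < r) =
      ∑ k ∈ range (t + 1), (t.choose k : ℝ) * 2 ^ (Fintype.card ι - t) *
        ind (|a - t / 2 + k| < r) := by
    rw [← sum_fiberwise_of_maps_to hmap]
    refine sum_congr rfl fun k _ => ?_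
    have h2 : ∀ y ∈ univ.filter (fun y : ι → Bool => (tr T y).card = k),
        ind (|a + hs T y| < r) = ind (|a - t / 2 + k| < r) := by
      intro y hy
      rw [hs_eq, (mem_filter.1 hy).2, ← ht]
      congr 2
      congr 1
      ring
    rw [sum_congr rfl h2, sum_const, cnt, nsmul_eq_mul]
    push_cast
    rw [← ht]
  rw [h1, mul_sum]
  have h3 : ∀ k ∈ range (t + 1), √((t : ℝ) + 1) * ((t.choose k : ℝ) * 2 ^ (Fintype.card ι - t) *
      ind (|a - t / 2 + k| < r)) ≤ 2 ^ Fintype.card ι * ind (|a - t / 2 + k| < r) := by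
    intro k _
    have h4 := ch' t k
    have h5 : (2 : ℝ) ^ Fintype.card ι = 2 ^ t * 2 ^ (Fintype.card ι - t) := by
      rw [← pow_add]
      congr 1
      omega
    rw [h5, ← mul_assoc, ← mul_assoc]
    refine mul_le_mul_of_nonneg_right ?_ (ind_nonneg _)
    exact mul_le_mul_of_nonneg_right h4 (by positivity)
  refine (sum_le_sum h3).trans ?_
  rw [← mul_sum, mul_comm]
  refine mul_le_mul_of_nonneg_right ?_ (by positivity)
  have h6 : ∑ k ∈ range (t + 1), ind (|a - t / 2 + k| < r) =
      (((range (t + 1)).filter (fun k : ℕ => |a - t / 2 + k| < r)).card : ℝ) := by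
    rw [card_filter]
    push_cast
    refine sum_congr rfl fun k _ => ?_
    unfold ind
    split_ifs <;> rfl
  rw [h6]
  exact ints _ _ _ hr

lemma swap (T : Finset ι) (H : (ι → Bool) → ℝ) :
    2 ^ Fintype.card ι * ∑ x, H x = ∑ x : ι → Bool, ∑ y : ι → Bool, H (T.piecewise y x) := by
  let e : ((ι → Bool) × (ι → Bool)) → ((ι → Bool) × (ι → Bool)) :=
    fun p => (T.piecewise p.2 p.1, T.piecewise p.1 p.2)
  have he : Function.Involutive e := by
    rintro ⟨x, y⟩
    refine Prod.ext ?_ ?_
    · funext i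
      by_cases hi : i ∈ T <;> simp [e, Finset.piecewise, hi]
    · funext i
      by_cases hi : i ∈ T <;> simp [e, Finset.piecewise, hi]
  have h1 : ∑ x : ι → Bool, ∑ y : ι → Bool, H (T.piecewise y x) =
      ∑ p : (ι → Bool) × (ι → Bool), H (e p).1 := by
    rw [Fintype.sum_prod_type]
  have h2 : ∑ p : (ι → Bool) × (ι → Bool), H (e p).1 = ∑ p : (ι → Bool) × (ι → Bool), H p.1 :=
    Equiv.sum_comp he.toPerm (fun p : (ι → Bool) × (ι → Bool) => H p.1)
  rw [h1, h2, Fintype.sum_prod_type]
  rw [mul_sum]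
  refine sum_congr rfl fun x _ => ?_
  change _ = ∑ _y : ι → Bool, H x
  rw [sum_const, nsmul_eq_mul, card_cube]

end

end SB

open SB in
/-- **Small ball estimate for the binomial distribution.** -/
theorem t_SB : S_SB := by
  intro ι _ _ T h r hr hoff
  have hN : (0 : ℝ) < 2 ^ Fintype.card ι := by positivity
  have h1 := swap T (fun x => ind (|h x + hs T x| < r))
  have h2 : ∀ x : ι → Bool, √((T.card : ℝ) + 1) *
      ∑ y : ι → Bool, ind (|h (T.piecewise y x) + hs T (T.piecewise y x)| < r) ≤
      (2 * r + 1) * 2 ^ Fintype.card ι := by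
    intro x
    refine le_trans (le_of_eq ?_) (ball T (h x) r hr)
    congr 1
    refine sum_congr rfl fun y _ => ?_
    have e1 : h (T.piecewise y x) = h x := hoff _ _ fun i hi => by
      rw [Finset.piecewise_eq_of_notMem _ _ _ hi]
    have e2 : hs T (T.piecewise y x) = hs T y := by
      unfold hs
      congr 1
      refine sum_congr rfl fun j hj => ?_
      rw [Finset.piecewise_eq_of_mem _ _ _ hj]
    rw [e1, e2]
  have h3 := sum_le_sum fun x (_ : x ∈ (univ : Finset (ι → Bool))) => h2 x
  rw [← mul_sum, ← h1, sum_const, nsmul_eq_mul, card_cube] at h3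
  have h4 : 2 ^ Fintype.card ι * (√((T.card : ℝ) + 1) * ∑ x, ind (|h x + hs T x| < r)) ≤
      2 ^ Fintype.card ι * ((2 * r + 1) * 2 ^ Fintype.card ι) := by
    refine le_trans (le_of_eq ?_) h3
    ring
  exact le_of_mul_le_mul_left h4 hN

end Pool.Agent.NH83.QI
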