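import Pool.Agent.NH83.QI.Defs

/-!
# QI-G: one class, large differences
-/

set_option autoImplicit false

namespace Pool.Agent.NH83.QI

open Finset

namespace TOP

lemma sn_mul (z : ℝ) : sn z * z = |z| := by
  unfold sn
  split_ifs with h
  · rw [abs_of_nonneg h, one_mul]
  · rw [abs_of_neg (not_le.1 h)]; ring

variable {ι : Type} [Fintype ι] [DecidableEq ι]

lemma swap_le (U : Finset ι) (e : ι → (ι → Bool) → ℝ) (η : ℝ)
    (h : ∀ i ∈ U, ∑ x, e i x ≤ η * 2 ^ Fintype.card ι) :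
    ∑ x, ∑ i ∈ U, e i x ≤ η * U.card * 2 ^ Fintype.card ι := by
  rw [sum_comm]
  calc ∑ i ∈ U, ∑ x, e i x ≤ ∑ _i ∈ U, η * 2 ^ Fintype.card ι := sum_le_sum h
    _ = η * U.card * 2 ^ Fintype.card ι := by rw [sum_const, nsmul_eq_mul]; ring

end TOP

open TOP in
theorem t_TOP : S_TOP := by
  intro hUN ι _ _ U F gin gout τ η c hC
  have hN : (0 : ℝ) ≤ 2 ^ Fintype.card ι := by positivity
  have hbig := swap_le U (fun i x => ind (τ / 4 ≤ |gin i x|)) η hC.big
  have h1 : ∑ x, ∑ i ∈ U, ind (sens c F i x ∧ 2 * τ ≤ |D i F x|) ≤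
      ∑ x, ∑ i ∈ U, ind (τ / 4 ≤ |gin i x|) +
        ∑ x, 1 * ∑ i ∈ U, ind (τ / 2 ≤ |gout i x| ∧ sens c F i x) := by
    rw [← sum_add_distrib]
    refine sum_le_sum fun x _ => ?_
    rw [one_mul, ← sum_add_distrib]
    refine sum_le_sum fun i hi => ind_or ?_
    rintro ⟨hs, hD⟩
    by_cases hg : τ / 4 ≤ |gin i x|
    · exact Or.inl hg
    · refine Or.inr ⟨?_, hs⟩
      rw [hC.eq i hi x] at hD
      have := abs_add_le (gin i x) (gout i x)
      have := hC.τ0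
      push Not at hg
      linarith
  have h2 := hUN ι U (fun _ => 1) (fun i x => τ / 2 ≤ |gout i x|) (fun i x => sn (gout i x)) F c
    (fun _ => by norm_num) (fun _ _ _ => rfl)
    (fun i hi x y hxy => by
      show (τ / 2 ≤ |gout i x|) = (τ / 2 ≤ |gout i y|)
      rw [hC.off i hi x y hxy])
    (fun i hi x y hxy => by
      show sn (gout i x) = sn (gout i y)
      rw [hC.off i hi x y hxy])
    (fun i _ x => sn_pm _)
  have h3 : ∑ x, (1 : ℝ) * ∑ i ∈ U, ind (τ / 2 ≤ |gout i x| ∧ sens c F i x ∧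
      sn (gout i x) * D i F x < 0) ≤ ∑ x, ∑ i ∈ U, ind (τ / 4 ≤ |gin i x|) := by
    refine sum_le_sum fun x _ => ?_
    rw [one_mul]
    refine sum_le_sum fun i hi => ind_mono ?_
    rintro ⟨hb, -, hm⟩
    rw [hC.eq i hi x, mul_add, sn_mul] at hm
    have h4 : |sn (gout i x) * gin i x| = |gin i x| := by
      rw [abs_mul]
      rcases sn_pm (gout i x) with h | h <;> rw [h] <;> norm_num
    have h5 := neg_abs_le (sn (gout i x) * gin i x)
    have := hC.τ0
    rw [h4] at h5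
    linarith
  have h6 : ∑ x : ι → Bool, (1 : ℝ) * ∑ i ∈ U, ind (τ / 2 ≤ |gout i x|) ≤
      U.card * 2 ^ Fintype.card ι := by
    calc ∑ x : ι → Bool, (1 : ℝ) * ∑ i ∈ U, ind (τ / 2 ≤ |gout i x|)
        ≤ ∑ _x : ι → Bool, (U.card : ℝ) := by
          refine sum_le_sum fun x _ => ?_
          rw [one_mul]
          calc ∑ i ∈ U, ind (τ / 2 ≤ |gout i x|) ≤ ∑ _i ∈ U, (1 : ℝ) :=
                sum_le_sum fun i _ => ind_le_one _
            _ = U.card := by simp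
      _ = U.card * 2 ^ Fintype.card ι := by
          rw [sum_const, nsmul_eq_mul, card_cube]; ring
  have h7 : √(∑ _x : ι → Bool, (1 : ℝ)) * √(∑ x : ι → Bool, (1 : ℝ) * ∑ i ∈ U,
      ind (τ / 2 ≤ |gout i x|)) ≤ √U.card * 2 ^ Fintype.card ι := by
    have h8 : ∑ _x : ι → Bool, (1 : ℝ) = 2 ^ Fintype.card ι := by
      rw [sum_const, nsmul_eq_mul, card_cube, mul_one]
    rw [h8]
    calc √((2 : ℝ) ^ Fintype.card ι) * √(∑ x : ι → Bool, (1 : ℝ) * ∑ i ∈ U,
          ind (τ / 2 ≤ |gout i x|))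
        ≤ √((2 : ℝ) ^ Fintype.card ι) * √(U.card * 2 ^ Fintype.card ι) :=
          mul_le_mul_of_nonneg_left (Real.sqrt_le_sqrt h6) (Real.sqrt_nonneg _)
      _ = √U.card * (√((2 : ℝ) ^ Fintype.card ι) * √((2 : ℝ) ^ Fintype.card ι)) := by
          rw [Real.sqrt_mul (Nat.cast_nonneg _)]; ring
      _ = √U.card * 2 ^ Fintype.card ι := by rw [Real.mul_self_sqrt hN]
  calc ∑ x, ∑ i ∈ U, ind (sens c F i x ∧ 2 * τ ≤ |D i F x|)
      ≤ η * U.card * 2 ^ Fintype.card ι + (√U.card * 2 ^ Fintype.card ι +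
          2 * (η * U.card * 2 ^ Fintype.card ι)) := by linarith
    _ = (√U.card + 3 * η * U.card) * 2 ^ Fintype.card ι := by ring

end Pool.Agent.NH83.QI
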