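import Pool.Agent.NH83.QI.Defs

/-!
# Project QI, part D: the weighted unate lemma
-/

set_option autoImplicit false
set_option linter.unusedSectionVars false

namespace Pool.Agent.NH83.QI

open Finset

namespace UN

variable {ι : Type} [Fintype ι] [DecidableEq ι]

/-- symmetrization -/
theorem sym {U : Finset ι} {w : (ι → Bool) → ℝ} (hw : Off U w) {i : ι} (hi : i ∈ U)
    (H : (ι → Bool) → ℝ) : ∑ x, w x * H x = ∑ x, w x * ((H x + H (flip i x)) / 2) := by
  have h1 := sum_flip i (fun x => w x * H x)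
  have h2 : ∑ x, w (flip i x) * H (flip i x) = ∑ x, w x * H (flip i x) :=
    Finset.sum_congr rfl fun x _ => by rw [Off.flip hw hi x]
  have h3 : ∑ x, w x * ((H x + H (flip i x)) / 2) =
      (∑ x, w x * H x + ∑ x, w x * H (flip i x)) / 2 := by
    rw [← Finset.sum_add_distrib, Finset.sum_div]
    exact Finset.sum_congr rfl fun x _ => by ring
  rw [h3, ← h2, h1]
  ring

/-- the sign of `F - c` -/
noncomputable def s (c : ℝ) (F : (ι → Bool) → ℝ) (x : ι → Bool) : ℝ := sn (F x - c)

theorem s_pos {c : ℝ} {F : (ι → Bool) → ℝ} {x : ι → Bool} (h : c ≤ F x) : s c F x = 1 := by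
  unfold s sn
  rw [if_pos (by linarith)]

theorem s_neg {c : ℝ} {F : (ι → Bool) → ℝ} {x : ι → Bool} (h : ¬ c ≤ F x) : s c F x = -1 := by
  unfold s sn
  rw [if_neg (by linarith)]

theorem s_sq (c : ℝ) (F : (ι → Bool) → ℝ) (x : ι → Bool) : s c F x * s c F x = 1 := by
  rcases sn_pm (F x - c) with h | h <;> simp [s, h]

theorem sens_flip (c : ℝ) (F : (ι → Bool) → ℝ) (i : ι) (x : ι → Bool) :
    sens c F i (flip i x) ↔ sens c F i x := by
  unfold sens
  rw [flip_flip]
  tauto

/-- one direction -/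
theorem dir {U : Finset ι} {w : (ι → Bool) → ℝ} {b : (ι → Bool) → Prop} {σ : (ι → Bool) → ℝ}
    (F : (ι → Bool) → ℝ) (c : ℝ) (hw : Off U w) (hb : Off U b) (hσ : Off U σ)
    (hσ1 : ∀ x, σ x = 1 ∨ σ x = -1) {i : ι} (hi : i ∈ U) :
    ∑ x, w x * ind (b x ∧ sens c F i x) =
      ∑ x, w x * (s c F x * (ind (b x) * σ x * sg (x i))) +
        2 * ∑ x, w x * ind (b x ∧ sens c F i x ∧ σ x * D i F x < 0) := by
  rw [sym hw hi (fun x => ind (b x ∧ sens c F i x)),
    sym hw hi (fun x => s c F x * (ind (b x) * σ x * sg (x i))),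
    sym hw hi (fun x => ind (b x ∧ sens c F i x ∧ σ x * D i F x < 0)), Finset.mul_sum,
    ← Finset.sum_add_distrib]
  refine Finset.sum_congr rfl fun x _ => ?_
  have hbf : b (flip i x) = b x := Off.flip hb hi x
  have hσf : σ (flip i x) = σ x := Off.flip hσ hi x
  simp only [hbf, hσf, sens_flip, D_flip_self, flip_same, sg_not]
  by_cases hbx : b x
  · by_cases hs : sens c F i x
    · have hd := D_sg i F x
      have hsq := sg_sq (x i)
      simp only [hbx, hs, true_and, ind_pos trivial]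
      have hs' : ¬ (c ≤ F x ↔ c ≤ F (flip i x)) := hs
      rcases sg_pm (x i) with hg | hg <;> rcases hσ1 x with h1 | h1 <;> rw [hg] at hd <;>
        by_cases hc : c ≤ F x
      all_goals
        first
        | have hc' : ¬ c ≤ F (flip i x) := fun h => hs' ⟨fun _ => h, fun _ => hc⟩
          rw [s_pos hc, s_neg hc', hg, h1]
        | have hc' : c ≤ F (flip i x) := by
            by_contra h
            exact hs' ⟨fun h' => absurd h' hc, fun h' => absurd h' h⟩
          rw [s_neg hc, s_pos hc', hg, h1]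
      all_goals
        first
        | rw [ind_pos (show _ < (0 : ℝ) by linarith)]
          ring
        | rw [ind_neg (show ¬ _ < (0 : ℝ) by linarith)]
          ring
    · have hs' : c ≤ F x ↔ c ≤ F (flip i x) := not_not.1 hs
      have he : s c F (flip i x) = s c F x := by
        by_cases hc : c ≤ F x
        · rw [s_pos hc, s_pos (hs'.1 hc)]
        · rw [s_neg hc, s_neg fun h => hc (hs'.2 h)]
      rw [he, ind_neg (show ¬ (b x ∧ sens c F i x) from fun h => hs h.2),
        ind_neg (show ¬ (b x ∧ sens c F i x ∧ σ x * D i F x < 0) from fun h => hs h.2.1)]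
      ring
  · rw [ind_neg hbx, ind_neg (show ¬ (b x ∧ sens c F i x) from fun h => hbx h.1),
        ind_neg (show ¬ (b x ∧ sens c F i x ∧ σ x * D i F x < 0) from fun h => hbx h.1)]
    ring

/-- the second moment -/
theorem mom {U : Finset ι} {w : (ι → Bool) → ℝ} {b : ι → (ι → Bool) → Prop}
    {σ : ι → (ι → Bool) → ℝ} (hw : Off U w) (hb : ∀ i ∈ U, Off U (b i))
    (hσ : ∀ i ∈ U, Off U (σ i)) (hσ1 : ∀ i ∈ U, ∀ x, σ i x = 1 ∨ σ i x = -1) :
    ∑ x, w x * (∑ i ∈ U, ind (b i x) * σ i x * sg (x i)) ^ 2 =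
      ∑ x, w x * ∑ i ∈ U, ind (b i x) := by
  have h1 : ∀ i ∈ U, ∀ j ∈ U, ∑ x, w x * ((ind (b i x) * σ i x * sg (x i)) *
      (ind (b j x) * σ j x * sg (x j))) = if i = j then ∑ x, w x * ind (b i x) else 0 := by
    intro i hi j hj
    by_cases hij : i = j
    · subst hij
      rw [if_pos rfl]
      refine Finset.sum_congr rfl fun x _ => ?_
      have h2 : σ i x * σ i x = 1 := by rcases hσ1 i hi x with h | h <;> rw [h] <;> norm_num
      have h3 := sg_sq (x i)
      have h4 : ind (b i x) * ind (b i x) = ind (b i x) := by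
        by_cases h : b i x
        · rw [ind_pos h]; norm_num
        · rw [ind_neg h]; norm_num
      calc w x * ((ind (b i x) * σ i x * sg (x i)) * (ind (b i x) * σ i x * sg (x i))) =
          w x * ((ind (b i x) * ind (b i x)) * (σ i x * σ i x) * (sg (x i) * sg (x i))) := by ring
        _ = w x * ind (b i x) := by rw [h2, h3, h4]; ring
    · rw [if_neg hij, sym hw hi]
      refine Finset.sum_eq_zero fun x _ => ?_
      have e1 : b i (flip i x) = b i x := Off.flip (hb i hi) hi x
      have e2 : b j (flip i x) = b j x := Off.flip (hb j hj) hi x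
      have e3 : σ i (flip i x) = σ i x := Off.flip (hσ i hi) hi x
      have e4 : σ j (flip i x) = σ j x := Off.flip (hσ j hj) hi x
      rw [e1, e2, e3, e4, flip_same, sg_not, flip_ne (Ne.symm hij)]
      ring
  have h2 : ∀ x, w x * (∑ i ∈ U, ind (b i x) * σ i x * sg (x i)) ^ 2 =
      ∑ i ∈ U, ∑ j ∈ U, w x * ((ind (b i x) * σ i x * sg (x i)) *
        (ind (b j x) * σ j x * sg (x j))) := by
    intro x
    rw [pow_two, Finset.sum_mul_sum, Finset.mul_sum]
    refine Finset.sum_congr rfl fun i _ => ?_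
    rw [Finset.mul_sum]
  simp only [h2]
  rw [Finset.sum_comm]
  have h3 : ∀ i ∈ U, ∑ x, ∑ j ∈ U, w x * ((ind (b i x) * σ i x * sg (x i)) *
      (ind (b j x) * σ j x * sg (x j))) = ∑ x, w x * ind (b i x) := by
    intro i hi
    rw [Finset.sum_comm, Finset.sum_congr rfl fun j hj => h1 i hi j hj, Finset.sum_ite_eq,
      if_pos hi]
  rw [Finset.sum_congr rfl h3, Finset.sum_comm]
  refine Finset.sum_congr rfl fun x _ => ?_
  rw [Finset.mul_sum]

end UN

/-- JD -/
theorem t_UN : S_UN := by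
  intro ι _ _ U w b σ F c hw0 hw hb hσ hσ1
  have h1 : ∑ x, w x * ∑ i ∈ U, ind (b i x ∧ sens c F i x) =
      ∑ x, w x * (UN.s c F x * ∑ i ∈ U, ind (b i x) * σ i x * sg (x i)) +
        2 * ∑ x, w x * ∑ i ∈ U, ind (b i x ∧ sens c F i x ∧ σ i x * D i F x < 0) := by
    simp only [Finset.mul_sum]
    rw [Finset.sum_comm, Finset.sum_comm (s := univ) (t := U),
      Finset.sum_comm (s := univ) (t := U), ← Finset.sum_add_distrib]
    refine Finset.sum_congr rfl fun i hi => ?_
    have h2 := UN.dir F c hw (hb i hi) (hσ i hi) (hσ1 i hi) hi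
    rw [Finset.mul_sum] at h2
    exact h2
  rw [h1]
  refine add_le_add_left ?_ _
  have h2 : ∑ x, w x * (UN.s c F x * ∑ i ∈ U, ind (b i x) * σ i x * sg (x i)) =
      ∑ x, (√(w x) * UN.s c F x) * (√(w x) * ∑ i ∈ U, ind (b i x) * σ i x * sg (x i)) := by
    refine Finset.sum_congr rfl fun x _ => ?_
    have h3 := Real.mul_self_sqrt (hw0 x)
    calc w x * (UN.s c F x * ∑ i ∈ U, ind (b i x) * σ i x * sg (x i)) =
        (√(w x) * √(w x)) * (UN.s c F x * ∑ i ∈ U, ind (b i x) * σ i x * sg (x i)) := by rw [h3]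
      _ = _ := by ring
  rw [h2]
  refine (Real.sum_mul_le_sqrt_mul_sqrt _ _ _).trans (le_of_eq ?_)
  congr 2
  · refine Finset.sum_congr rfl fun x _ => ?_
    rw [mul_pow, Real.sq_sqrt (hw0 x), pow_two (UN.s c F x), UN.s_sq, mul_one]
  · rw [← UN.mom hw hb hσ hσ1]
    refine Finset.sum_congr rfl fun x _ => ?_
    rw [mul_pow, Real.sq_sqrt (hw0 x)]

end Pool.Agent.NH83.QI
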